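import Pool.Agent.TH26.Cub.Haar
import Pool.Agent.W425.PZ.Pole
import Pool.Agent.W195.PZ.Null

set_option autoImplicit false
set_option linter.unusedSectionVars false

/-! The strong monodromy conjecture and the cubic polynomials `∑ t_j q_j(x)`. -/

namespace Pool.Agent.TH26.Cub

open MeasureTheory MvPolynomial Filter Topology
open Pool.Agent.W427.SMC (igusaZeta)
open Pool.Agent.H628R4.TP (IsBFunction)
open Pool.Agent.W206.CU

section
variable {n : ℕ} {f : MvPolynomial (Fin n) ℤ} {ρ : Type} [Fintype ρ] {m : ℕ}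
  {F : MvPolynomial ρ ℤ}

theorem b_of_follow (h : Follow f ρ m F) (b : Polynomial ℂ)
    (hb : IsBFunction (map (Int.castRingHom ℂ) f) b) :
    IsBFunction (map (Int.castRingHom ℂ) F)
      ((Polynomial.X + 1) * b.comp (Polynomial.X + Polynomial.C (m : ℂ))) :=
  isBFunction_of_bs1 (h.1 b hb)

theorem zeta_of_follow (p : ℕ) [hp : Fact p.Prime] (h : Follow f ρ m F) (s : ℂ) (hs : 0 < s.re) :
    (1 - (p : ℂ) ^ (-(m : ℂ) - s)) * (1 - (p : ℂ) ^ (-1 - s)) * igusaZeta p F s =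
      (1 - (p : ℂ)⁻¹) * ((1 - (p : ℂ) ^ (-(m : ℂ))) +
        (p : ℂ) ^ (-(m : ℂ)) * (1 - (p : ℂ) ^ (-s)) * igusaZeta p f (s + m)) := by
  have hp0 : (p : ℂ) ≠ 0 := by exact_mod_cast hp.out.ne_zero
  have e1 : (p : ℂ) ^ (-(m : ℂ) - s) = ((p : ℂ)⁻¹) ^ m * (p : ℂ) ^ (-s) := by
    rw [sub_eq_add_neg, Complex.cpow_add _ _ hp0, Complex.cpow_neg, Complex.cpow_natCast,
      inv_pow]
  have e2 : (p : ℂ) ^ (-1 - s) = (p : ℂ)⁻¹ * (p : ℂ) ^ (-s) := by
    rw [sub_eq_add_neg, Complex.cpow_add _ _ hp0, Complex.cpow_neg_one]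
  have e3 : (p : ℂ) ^ (-(m : ℂ)) = ((p : ℂ)⁻¹) ^ m := by
    rw [Complex.cpow_neg, Complex.cpow_natCast, inv_pow]
  have hT := norm_T_lt p hs
  have hT0 := T_ne_zero p s
  have hp1 : (1 : ℝ) < p := by exact_mod_cast hp.out.one_lt
  have hpi : ‖(p : ℂ)⁻¹‖ ≤ 1 := by
    rw [norm_inv, Complex.norm_natCast]
    exact inv_le_one_of_one_le₀ hp1.le
  have n1 : 1 - (p : ℂ)⁻¹ * (p : ℂ) ^ (-s) ≠ 0 := by
    refine sub_ne_zero_of_norm_lt ?_
    rw [norm_mul]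
    exact lt_of_le_of_lt (mul_le_of_le_one_left (norm_nonneg _) hpi) hT
  have n2 : 1 - ((p : ℂ)⁻¹) ^ m * (p : ℂ) ^ (-s) ≠ 0 := by
    refine sub_ne_zero_of_norm_lt ?_
    rw [norm_mul, norm_pow]
    exact lt_of_le_of_lt (mul_le_of_le_one_left (norm_nonneg _)
      (pow_le_one₀ (norm_nonneg _) hpi)) hT
  rw [igusa_follow p h hs, e1, e2, e3, AA, BB]
  set T := (p : ℂ) ^ (-s) with hTd
  set q := (p : ℂ)⁻¹ with hq
  set Q := q ^ m with hQ
  have i1 : (1 - q * T) * (1 - q * T)⁻¹ = 1 := mul_inv_cancel₀ n1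
  have i2 : (1 - Q * T) * (1 - Q * T)⁻¹ = 1 := mul_inv_cancel₀ n2
  have i3 : T * T⁻¹ = 1 := mul_inv_cancel₀ hT0
  generalize (1 - q * T)⁻¹ = u at i1 ⊢
  generalize (1 - Q * T)⁻¹ = v at i2 ⊢
  generalize T⁻¹ = w at i3 ⊢
  generalize igusaZeta p f (s + m) = Z
  clear_value Q
  linear_combination ((1 - Q * T) * (-(1 - T) * (q + (1 - q) * v) * w +
      (1 - T) * (1 - q) * v * Q * Z)) * i1 +
    (-(1 - T) * (1 - q) * w + (1 - T) * (1 - q) * Q * Z) * i2 + ((1 - q) * (1 - Q)) * i3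

/-- the root multiplicities of the new `b` -/
lemma rootMult_new {b : Polynomial ℂ} (hb : b ≠ 0) {x : ℂ} (hx : x - m ≠ -1) :
    ((Polynomial.X + 1) * b.comp (Polynomial.X + Polynomial.C (m : ℂ))).rootMultiplicity (x - m) =
      b.rootMultiplicity x := by
  have hc := comp_ne_zero hb (m : ℂ)
  have hX : (Polynomial.X + 1 : Polynomial ℂ) ≠ 0 := Polynomial.X_add_C_ne_zero 1
  rw [Polynomial.rootMultiplicity_mul (mul_ne_zero hX hc), rootMultiplicity_comp, sub_add_cancel,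
    Polynomial.rootMultiplicity_eq_zero (p := Polynomial.X + 1), zero_add]
  intro hroot
  apply hx
  rw [Polynomial.IsRoot.def] at hroot
  simp only [Polynomial.eval_add, Polynomial.eval_X, Polynomial.eval_one] at hroot
  linear_combination hroot

lemma eval_new {b : Polynomial ℂ} {x : ℂ} (hx : x - m ≠ -1)
    (h : ((Polynomial.X + 1) * b.comp (Polynomial.X + Polynomial.C (m : ℂ))).eval (x - m) = 0) :
    b.eval x = 0 := by
  rw [Polynomial.eval_mul, Polynomial.eval_comp] at h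
  simp only [Polynomial.eval_add, Polynomial.eval_X, Polynomial.eval_one, Polynomial.eval_C,
    sub_add_cancel] at h
  refine (mul_eq_zero.1 h).resolve_left fun h1 => hx ?_
  linear_combination h1

lemma new_ne {b : Polynomial ℂ} (hb : b ≠ 0) :
    (Polynomial.X + 1) * b.comp (Polynomial.X + Polynomial.C (m : ℂ)) ≠ 0 :=
  mul_ne_zero (Polynomial.X_add_C_ne_zero 1) (comp_ne_zero hb (m : ℂ))

lemma shift_ne (hm : 1 ≤ m) {t : ℝ} (ht : t < 0) : ((t : ℝ) : ℂ) - m ≠ -1 := by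
  intro h
  have h1 := congrArg Complex.re h
  simp only [Complex.sub_re, Complex.ofReal_re, Complex.natCast_re, Complex.neg_re,
    Complex.one_re] at h1
  have : (1 : ℝ) ≤ m := by exact_mod_cast hm
  linarith

theorem MC1_of_follow (p : ℕ) [Fact p.Prime] (h : Follow f ρ m F) (hm : 1 ≤ m)
    (hF : MC1 p F) : MC1 p f := by
  intro Z hZ hZ2 s₀ h0 b hb
  obtain ⟨W, hW, hW2, hW3⟩ := pole_transfer_igusa p h hm hZ hZ2 h0
  have hre := Pool.Agent.W206.CU.re_neg_of_pole p f hZ2 h0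
  have h1 := hF W hW hW2 (s₀ - m) (by rw [hW3]; exact h0) _ (b_of_follow h b hb)
  have e1 : (((s₀ - (m : ℂ)).re : ℝ) : ℂ) = ((s₀.re : ℝ) : ℂ) - m := by simp
  rw [e1] at h1
  exact eval_new (shift_ne hm hre) h1

theorem MC2_of_follow (p : ℕ) [Fact p.Prime] (h : Follow f ρ m F) (hm : 1 ≤ m)
    (hF : MC2 p F) : MC2 p f := by
  intro Z hZ hZ2 s₀ b hb0 hb
  by_cases h0 : meromorphicOrderAt Z s₀ < 0
  swap
  · refine le_trans ?_ (not_lt.1 h0)
    have : (-(b.rootMultiplicity ((s₀.re : ℝ) : ℂ) : ℤ) : ℤ) ≤ 0 := by omega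
    exact_mod_cast this
  obtain ⟨W, hW, hW2, hW3⟩ := pole_transfer_igusa p h hm hZ hZ2 h0
  have hre := Pool.Agent.W206.CU.re_neg_of_pole p f hZ2 h0
  have h1 := hF W hW hW2 (s₀ - m) _ (new_ne (m := m) hb0) (b_of_follow h b hb)
  have e1 : (((s₀ - (m : ℂ)).re : ℝ) : ℂ) = ((s₀.re : ℝ) : ℂ) - m := by simp
  rw [e1, rootMult_new hb0 (shift_ne hm hre), hW3] at h1
  exact h1

/-- the conclusion for the poles of the Poincare series -/
def PC1 (p : ℕ) {V : Type} (f : MvPolynomial V ℤ) : Prop :=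
  ∀ (T₀ : ℂ) (μ : ℕ), 0 < μ → IsPoleOfOrder (poincare p f) T₀ μ → ∀ b : Polynomial ℂ,
    IsBFunction (map (Int.castRingHom ℂ) f) b →
    b.eval ((-Real.log ‖T₀‖ / Real.log p : ℝ) : ℂ) = 0

/-- the conclusion for the poles of the Poincare series, with orders -/
def PC2 (p : ℕ) {V : Type} (f : MvPolynomial V ℤ) : Prop :=
  ∀ (T₀ : ℂ) (μ : ℕ), 0 < μ → IsPoleOfOrder (poincare p f) T₀ μ → ∀ b : Polynomial ℂ, b ≠ 0 →
    IsBFunction (map (Int.castRingHom ℂ) f) b →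
    μ ≤ b.rootMultiplicity ((-Real.log ‖T₀‖ / Real.log p : ℝ) : ℂ)

lemma pole_follow (p : ℕ) [hp : Fact p.Prime] (h : Follow f ρ m F)
    (hf : f ≠ 0) {T₀ : ℂ} {μ : ℕ} (hμ : 0 < μ) (hT : IsPoleOfOrder (poincare p f) T₀ μ) :
    (-Real.log ‖T₀‖ / Real.log p < 0) ∧
    ∃ μ', μ ≤ μ' ∧ IsPoleOfOrder (poincare p F) (T₀ / ((p : ℂ)⁻¹) ^ m) μ' ∧
      ((-Real.log ‖T₀ / ((p : ℂ)⁻¹) ^ m‖ / Real.log p : ℝ) : ℂ) =
        ((-Real.log ‖T₀‖ / Real.log p : ℝ) : ℂ) - m := by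
  have hp0 : (p : ℂ) ≠ 0 := by exact_mod_cast hp.out.ne_zero
  have hp1 : (1 : ℝ) < p := by exact_mod_cast hp.out.one_lt
  obtain ⟨Z, s₀, _, hZ2, hZ3, hs⟩ := Pool.Agent.W425.PZ.pole_of_poincare p f
    (Pool.Agent.W195.PZ.null hf) hμ hT
  have hre := Pool.Agent.W206.CU.re_neg_of_pole p f hZ2 hZ3
  rw [hs] at hre
  have hT0 := pole_ne_zero hμ hT
  obtain ⟨μ', h1, h2⟩ := pole_transfer (inv_ne_zero hp0) (pow_ne_zero m (inv_ne_zero hp0))
    (by
      rw [sub_ne_zero]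
      intro h
      have h3 := congrArg norm h
      rw [norm_one, norm_inv, Complex.norm_natCast] at h3
      exact absurd h3.symm (inv_lt_one_of_one_lt₀ hp1).ne) (poincare_eq h p) hμ hT
  refine ⟨hre, μ', h1, h2, ?_⟩
  have hlp : Real.log p ≠ 0 := (Real.log_pos hp1).ne'
  have e1 : Real.log ‖T₀ / ((p : ℂ)⁻¹) ^ m‖ = Real.log ‖T₀‖ + m * Real.log p := by
    rw [norm_div, norm_pow, norm_inv, Complex.norm_natCast,
      Real.log_div (norm_ne_zero_iff.2 hT0) (by positivity), Real.log_pow, Real.log_inv]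
    ring
  rw [e1]
  have e2 : -(Real.log ‖T₀‖ + m * Real.log p) / Real.log p = -Real.log ‖T₀‖ / Real.log p - m := by
    field_simp
    ring
  rw [e2]
  push_cast
  ring

theorem PC1_of_follow (p : ℕ) [hp : Fact p.Prime] (h : Follow f ρ m F) (hm : 1 ≤ m)
    (hf : f ≠ 0) (hF : PC1 p F) : PC1 p f := by
  intro T₀ μ hμ hT b hb
  obtain ⟨h1, μ', h2, h3, h4⟩ := pole_follow p h hf hμ hT
  have h5 := hF _ μ' (by omega) h3 _ (b_of_follow h b hb)
  rw [h4] at h5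
  exact eval_new (shift_ne hm h1) h5

theorem PC2_of_follow (p : ℕ) [hp : Fact p.Prime] (h : Follow f ρ m F) (hm : 1 ≤ m)
    (hf : f ≠ 0) (hF : PC2 p F) : PC2 p f := by
  intro T₀ μ hμ hT b hb0 hb
  obtain ⟨h1, μ', h2, h3, h4⟩ := pole_follow p h hf hμ hT
  have h5 := hF _ μ' (by omega) h3 _ (new_ne (m := m) hb0) (b_of_follow h b hb)
  rw [h4, rootMult_new hb0 (shift_ne hm h1)] at h5
  exact h2.trans h5

end

end Pool.Agent.TH26.Cub
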