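import Pool.Agent.TH26.Cub.Padic3

set_option autoImplicit false
set_option linter.unusedSectionVars false

/-! Every polynomial becomes cubic after adding `∑ u_i v_i` and a polynomial automorphism. -/

namespace Pool.Agent.TH26.Cub

open MvPolynomial

section
variable {R : Type} [CommRing R]

/-- the sum of the terms of a list -/
noncomputable def val {V : Type} (T : List (R × List V)) : MvPolynomial V R :=
  (T.map fun t => C t.1 * (t.2.map X).prod).sum

/-- the excess of the degrees over three -/
def meas {V : Type} (T : List (R × List V)) : ℕ := (T.map fun t => t.2.length - 3).sum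

lemma totalDegree_term {V : Type} (c : R) (L : List V) :
    (C c * (L.map X).prod : MvPolynomial V R).totalDegree ≤ L.length := by
  refine (totalDegree_mul _ _).trans ?_
  rw [totalDegree_C, zero_add]
  induction L with
  | nil => simp
  | cons i L ih =>
    rw [List.map_cons, List.prod_cons, List.length_cons]
    refine (totalDegree_mul _ _).trans ?_
    have h1 : (X i : MvPolynomial V R).totalDegree ≤ 1 := by
      rcases subsingleton_or_nontrivial R with h | h
      · rw [Subsingleton.elim (X i : MvPolynomial V R) 0]; simp
      · rw [totalDegree_X]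
    omega

lemma exists_terms {V : Type} (f : MvPolynomial V R) : ∃ T : List (R × List V), val T = f := by
  classical
  induction f using MvPolynomial.induction_on with
  | C a => exact ⟨[(a, [])], by simp [val]⟩
  | add p q hp hq =>
    obtain ⟨T, rfl⟩ := hp
    obtain ⟨T', rfl⟩ := hq
    exact ⟨T ++ T', by simp [val]⟩
  | mul_X p i hp =>
    obtain ⟨T, rfl⟩ := hp
    refine ⟨T.map fun t => (t.1, i :: t.2), ?_⟩
    unfold val
    rw [List.map_map, ← List.sum_map_mul_right]
    congr 1
    refine List.map_congr_left fun t _ => ?_
    simp only [Function.comp_apply, List.map_cons, List.prod_cons]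
    ring

lemma val_rename {V W : Type} (j : V → W) (T : List (R × List V)) :
    rename j (val T) = val (T.map fun t => (t.1, t.2.map j)) := by
  unfold val
  rw [map_list_sum, List.map_map, List.map_map]
  congr 1
  refine List.map_congr_left fun t _ => ?_
  simp only [Function.comp_apply, map_mul, rename_C, map_list_prod, List.map_map]
  congr 3
  funext i
  simp

lemma meas_rename {V W : Type} (j : V → W) (T : List (R × List V)) :
    meas (T.map fun t => (t.1, t.2.map j)) = meas T := by
  unfold meas
  rw [List.map_map]
  congr 1
  refine List.map_congr_left fun t _ => ?_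
  simp

/-- the variables, rearranged -/
def e1 (V ι : Type) : (V ⊕ Bool) ⊕ (ι ⊕ ι) ≃ (V ⊕ (ι ⊕ ι)) ⊕ Bool where
  toFun
    | Sum.inl (Sum.inl v) => Sum.inl (Sum.inl v)
    | Sum.inl (Sum.inr b) => Sum.inr b
    | Sum.inr w => Sum.inl (Sum.inr w)
  invFun
    | Sum.inl (Sum.inl v) => Sum.inl (Sum.inl v)
    | Sum.inl (Sum.inr w) => Sum.inr w
    | Sum.inr b => Sum.inl (Sum.inr b)
  left_inv := by rintro ((v | b) | w) <;> rfl
  right_inv := by rintro ((v | w) | b) <;> rfl

/-- the variables, rearranged -/
def e2 (V ι : Type) : V ⊕ (Option ι ⊕ Option ι) ≃ (V ⊕ (ι ⊕ ι)) ⊕ Bool where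
  toFun
    | Sum.inl v => Sum.inl (Sum.inl v)
    | Sum.inr (Sum.inl (some i)) => Sum.inl (Sum.inr (Sum.inl i))
    | Sum.inr (Sum.inl none) => Sum.inr true
    | Sum.inr (Sum.inr (some i)) => Sum.inl (Sum.inr (Sum.inr i))
    | Sum.inr (Sum.inr none) => Sum.inr false
  invFun
    | Sum.inl (Sum.inl v) => Sum.inl v
    | Sum.inl (Sum.inr (Sum.inl i)) => Sum.inr (Sum.inl (some i))
    | Sum.inl (Sum.inr (Sum.inr i)) => Sum.inr (Sum.inr (some i))
    | Sum.inr true => Sum.inr (Sum.inl none)
    | Sum.inr false => Sum.inr (Sum.inr none)
  left_inv := by rintro (v | (_ | i) | (_ | i)) <;> rfl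
  right_inv := by rintro ((v | i | i) | (_ | _)) <;> rfl

/-- one step: `h + a b` and `h + u v - u b + a v` -/
noncomputable def step {V : Type} (h a b : MvPolynomial V R) : MvPolynomial (V ⊕ Bool) R :=
  rename Sum.inl h + X (Sum.inr true) * X (Sum.inr false) - X (Sum.inr true) * rename Sum.inl b +
    rename Sum.inl a * X (Sum.inr false)

/-- the shear of the step -/
noncomputable def shf {V : Type} (ι : Type) (a b : MvPolynomial V R) :
    Bool → MvPolynomial (V ⊕ (ι ⊕ ι)) R
  | true => rename Sum.inl a
  | false => - rename Sum.inl b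

lemma shear_step {V ι : Type} [Fintype ι] (h a b : MvPolynomial V R) :
    shear (shf ι a b) (rename (e2 V ι) (stab (Option ι) (h + a * b))) =
      rename (e1 V ι) (stab ι (step h a b)) := by
  have hl : ∀ g : MvPolynomial V R, shear (shf ι a b)
      (rename (e2 V ι) (rename Sum.inl g)) = rename (fun v => Sum.inl (Sum.inl v)) g := by
    intro g
    induction g using MvPolynomial.induction_on with
    | C r => simp [shear]
    | add p q hp hq => simp only [map_add, hp, hq]
    | mul_X p i hp =>
      simp only [map_mul, hp, rename_X]
      congr 1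
      unfold shear
      rw [aeval_X]
      rfl
  have hr : ∀ g : MvPolynomial V R,
      rename (e1 V ι) (rename Sum.inl (rename Sum.inl g) :
        MvPolynomial ((V ⊕ Bool) ⊕ (ι ⊕ ι)) R) = rename (fun v => Sum.inl (Sum.inl v)) g := by
    intro g
    rw [rename_rename, rename_rename]
    rfl
  have hx : ∀ i, shear (shf ι a b) (rename (e2 V ι) (X i)) =
      Sum.elim (fun i => X (Sum.inl i)) (fun j => X (Sum.inr j) + rename Sum.inl (shf ι a b j))
        (e2 V ι i) := by
    intro i
    rw [rename_X]
    unfold shear
    rw [aeval_X]
  unfold stab step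
  rw [Fintype.sum_option]
  simp only [map_mul, map_add, map_sub, map_sum, hx, hr, hl]
  simp only [rename_X]
  simp only [e1, e2, Equiv.coe_fn_mk, Sum.elim_inl, Sum.elim_inr, shf, rename_rename, map_neg]
  have hc : (Sum.inl ∘ Sum.inl : V → (V ⊕ (ι ⊕ ι)) ⊕ Bool) = fun v => Sum.inl (Sum.inl v) := rfl
  rw [hc]
  ring

lemma val_append {V : Type} (T T' : List (R × List V)) : val (T ++ T') = val T + val T' := by
  simp [val]

lemma val_cons {V : Type} (t : R × List V) (T : List (R × List V)) :
    val (t :: T) = C t.1 * (t.2.map X).prod + val T := by simp [val]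

lemma meas_append {V : Type} (T T' : List (R × List V)) : meas (T ++ T') = meas T + meas T' := by
  simp [meas]

lemma meas_cons {V : Type} (t : R × List V) (T : List (R × List V)) :
    meas (t :: T) = (t.2.length - 3) + meas T := by simp [meas]

lemma totalDegree_val {V : Type} (T : List (R × List V)) (hT : ∀ t ∈ T, t.2.length ≤ 3) :
    (val T).totalDegree ≤ 3 := by
  induction T with
  | nil => simp [val]
  | cons t T ih =>
    rw [val_cons]
    refine (totalDegree_add _ _).trans (max_le ?_ ?_)
    · exact (totalDegree_term _ _).trans (hT t (by simp))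
    · exact ih fun t' ht' => hT t' (by simp [ht'])

lemma totalDegree_stab {V ι : Type} [Fintype ι] (h : MvPolynomial V R) (hh : h.totalDegree ≤ 3) :
    (stab ι h).totalDegree ≤ 3 := by
  unfold stab
  refine (totalDegree_add _ _).trans (max_le ?_ ?_)
  · exact (totalDegree_rename_le _ _).trans hh
  · refine (totalDegree_finsetSum _ _).trans (Finset.sup_le fun i _ => ?_)
    refine (totalDegree_mul _ _).trans ?_
    have h1 : ∀ i : V ⊕ (ι ⊕ ι), (X i : MvPolynomial (V ⊕ (ι ⊕ ι)) R).totalDegree ≤ 1 := by
      intro i
      rcases subsingleton_or_nontrivial R with h | h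
      · rw [Subsingleton.elim (X i : MvPolynomial (V ⊕ (ι ⊕ ι)) R) 0]; simp
      · rw [totalDegree_X]
    have h2 := h1 (Sum.inr (Sum.inl i))
    have h3 := h1 (Sum.inr (Sum.inr i))
    omega

/-- **The reduction to degree at most three.** A property of polynomials that is invariant under
the renaming of the variables and under shears and holds for the polynomials of degree at most `3`
holds for `h + ∑_i u_i v_i` with a suitable number of pairs `u_i, v_i`, for every `h`. -/
theorem reduce (Q : ∀ (V : Type) [Fintype V], MvPolynomial V R → Prop)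
    (hren : ∀ (V W : Type) [Fintype V] [Fintype W] (e : V ≃ W) (F : MvPolynomial V R),
      Q W (rename e F) → Q V F)
    (hshear : ∀ (V W : Type) [Fintype V] [Fintype W] (a : W → MvPolynomial V R)
      (F : MvPolynomial (V ⊕ W) R), Q (V ⊕ W) (shear a F) → Q (V ⊕ W) F)
    (h3 : ∀ (V : Type) [Fintype V] (F : MvPolynomial V R), F.totalDegree ≤ 3 → Q V F)
    (V : Type) [Fintype V] (h : MvPolynomial V R) :
    ∃ (ι : Type) (_ : Fintype ι), 1 ≤ Fintype.card ι ∧ Q (V ⊕ (ι ⊕ ι)) (stab ι h) := by
  have hren' : ∀ (V W : Type) [Fintype V] [Fintype W] (e : V ≃ W) (F : MvPolynomial V R),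
      Q V F → Q W (rename e F) := by
    intro V W _ _ e F hF
    refine hren W V e.symm _ ?_
    rw [rename_rename]
    have : (e.symm ∘ e : V → V) = id := by funext i; simp
    rw [this, rename_id_apply]
    exact hF
  have main : ∀ (m : ℕ) (V : Type) [Fintype V] (T : List (R × List V)), meas T ≤ m →
      ∃ (ι : Type) (_ : Fintype ι), 1 ≤ Fintype.card ι ∧ Q (V ⊕ (ι ⊕ ι)) (stab ι (val T)) := by
    intro m
    induction m with
    | zero =>
      intro V _ T hT
      refine ⟨Unit, inferInstance, by simp, h3 _ _ (totalDegree_stab _ (totalDegree_val T ?_))⟩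
      intro t ht
      have h0 : meas T = 0 := Nat.le_zero.1 hT
      unfold meas at h0
      have := List.sum_eq_zero_iff.1 h0 (t.2.length - 3) (List.mem_map.2 ⟨t, ht, rfl⟩)
      omega
    | succ m ih =>
      intro V _ T hT
      by_cases hall : ∀ t ∈ T, t.2.length ≤ 3
      · exact ⟨Unit, inferInstance, by simp, h3 _ _ (totalDegree_stab _ (totalDegree_val T hall))⟩
      push Not at hall
      obtain ⟨⟨c, L⟩, ht, hL⟩ := hall
      obtain ⟨T1, T2, rfl⟩ := List.append_of_mem ht
      match L, hL with
      | i :: j :: L, hL =>
        rw [List.length_cons, List.length_cons] at hL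
        set h0 : MvPolynomial V R := val (T1 ++ T2) with hh0
        set a : MvPolynomial V R := C c * (L.map X).prod with ha
        set b : MvPolynomial V R := X i * X j with hb
        have hval : val (T1 ++ (c, i :: j :: L) :: T2) = h0 + a * b := by
          rw [hh0, ha, hb, val_append, val_append, val_cons]
          simp only [List.map_cons, List.prod_cons]
          ring
        set T' : List (R × List (V ⊕ Bool)) :=
          (T1 ++ T2).map (fun t => (t.1, t.2.map Sum.inl)) ++
            [(1, [Sum.inr true, Sum.inr false]), (-1, [Sum.inr true, Sum.inl i, Sum.inl j]),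
              (c, Sum.inr false :: L.map Sum.inl)] with hT'
        have hstep : val T' = step h0 a b := by
          rw [hT', val_append, ← val_rename]
          unfold step
          rw [← hh0, ha, hb]
          simp only [val, List.map_cons, List.map_nil, List.prod_cons, List.prod_nil,
            List.sum_cons, List.sum_nil, map_mul, rename_C, rename_X, map_one, map_neg,
            map_list_prod, List.map_map]
          have hc : ((rename (Sum.inl : V → V ⊕ Bool)) ∘ X : V → MvPolynomial (V ⊕ Bool) R) =
              X ∘ Sum.inl := by funext i; simp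
          rw [hc]
          ring
        have hmeas : meas T' ≤ m := by
          rw [meas_append, meas_cons, List.length_cons, List.length_cons] at hT
          rw [hT', meas_append, meas_rename, meas_append]
          simp only [meas, List.map_cons, List.map_nil, List.sum_cons, List.sum_nil,
            List.length_cons, List.length_nil, List.length_map] at hT ⊢
          omega
        obtain ⟨ι, _, hι, hQ⟩ := ih (V ⊕ Bool) T' hmeas
        refine ⟨Option ι, inferInstance, by rw [Fintype.card_option]; omega, ?_⟩
        rw [hval]
        refine hren _ _ (e2 V ι) _ (hshear _ _ (shf ι a b) _ ?_)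
        rw [shear_step, ← hstep]
        exact hren' _ _ (e1 V ι) _ hQ
  obtain ⟨T, rfl⟩ := exists_terms h
  exact main (meas T) V T le_rfl

end

end Pool.Agent.TH26.Cub
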