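import Pool.Agent.TH26.Cub.Pole
import Pool.Agent.TH26.Cub.Reduce

set_option autoImplicit false
set_option linter.unusedSectionVars false

/-! The cubic polynomial of a polynomial. -/

namespace Pool.Agent.TH26.Cub

open MeasureTheory Pool.Agent.W427.SMC MvPolynomial Filter Topology
open Pool.Agent.H628R4.TP (IsBFunction)

/-- inverse shears -/
lemma shear_neg {R : Type} [CommRing R] {V W : Type} (a : W → MvPolynomial V R) :
    (shear a).comp (shear (-a)) = AlgHom.id R (MvPolynomial (V ⊕ W) R) := by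
  have hl : ∀ g : MvPolynomial V R, shear a (rename Sum.inl g) = rename Sum.inl g := by
    intro g
    induction g using MvPolynomial.induction_on with
    | C r => simp [shear]
    | add p q hp hq => simp only [map_add, hp, hq]
    | mul_X p i hp =>
      simp only [map_mul, hp, rename_X]
      congr 1
      unfold shear
      rw [aeval_X]
      rfl
  refine MvPolynomial.algHom_ext fun i => ?_
  rw [AlgHom.comp_apply, AlgHom.id_apply]
  rcases i with i | j
  · have : ∀ a : W → MvPolynomial V R, shear a (X (Sum.inl i)) = X (Sum.inl i) := by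
      intro a
      unfold shear
      rw [aeval_X]; rfl
    rw [this, this]
  · have : ∀ a : W → MvPolynomial V R, shear a (X (Sum.inr j)) =
        X (Sum.inr j) + rename Sum.inl (a j) := by
      intro a
      unfold shear
      rw [aeval_X]; rfl
    rw [this, map_add, this, hl, Pi.neg_apply, map_neg, add_neg_cancel_right]

/-- the shear as an automorphism -/
noncomputable def shearE {R : Type} [CommRing R] {V W : Type} (a : W → MvPolynomial V R) :
    MvPolynomial (V ⊕ W) R ≃ₐ[R] MvPolynomial (V ⊕ W) R :=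
  AlgEquiv.ofAlgHom (shear a) (shear (-a)) (shear_neg a) (by
    have := shear_neg (-a)
    rwa [neg_neg] at this)

lemma map_shear {V W : Type} (a : W → MvPolynomial V ℤ) (F : MvPolynomial (V ⊕ W) ℤ) :
    map (Int.castRingHom ℂ) (shear a F) =
      shearE (fun j => map (Int.castRingHom ℂ) (a j)) (map (Int.castRingHom ℂ) F) := by
  show _ = shear (fun j => map (Int.castRingHom ℂ) (a j)) (map (Int.castRingHom ℂ) F)
  induction F using MvPolynomial.induction_on with
  | C r => simp [shear]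
  | add p q hp hq => simp only [map_add, hp, hq]
  | mul_X p i hp =>
    simp only [map_mul, hp, map_X]
    congr 1
    unfold shear
    rw [aeval_X, aeval_X]
    rcases i with i | j
    · simp
    · simp [map_rename]

/-- the polynomial `h` is, up to an automorphism, of degree at most three -/
def CQ (V : Type) [Fintype V] (h : MvPolynomial V ℤ) : Prop :=
  ∃ (m : ℕ) (g : MvPolynomial (Fin m) ℤ), g.totalDegree ≤ 3 ∧
    (∀ (p : ℕ) [Fact p.Prime] (s : ℂ), 0 < s.re → Zt p g s = Zt p h s) ∧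
    (∀ b, IsBFunction (map (Int.castRingHom ℂ) g) b ↔
      IsBFunction (map (Int.castRingHom ℂ) h) b)

theorem isB_rename_iff {V W : Type} [Finite V] [Finite W] (e : V ≃ W) (F : MvPolynomial V ℤ)
    (b : Polynomial ℂ) :
    IsBFunction (map (Int.castRingHom ℂ) (rename e F)) b ↔
      IsBFunction (map (Int.castRingHom ℂ) F) b := by
  rw [map_rename]
  exact isB_equiv_iff (renameEquiv ℂ e) _ b

theorem exists_cubic (V : Type) [Fintype V] (h : MvPolynomial V ℤ) :
    ∃ (ι : Type) (_ : Fintype ι), 1 ≤ Fintype.card ι ∧ CQ (V ⊕ (ι ⊕ ι)) (stab ι h) := by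
  refine reduce CQ ?_ ?_ ?_ V h
  · rintro V W _ _ e F ⟨m, g, hg, h1, h2⟩
    refine ⟨m, g, hg, fun p _ s hs => ?_, fun b => ?_⟩
    · rw [h1 p s hs, Zt_rename]
    · rw [h2 b, isB_rename_iff]
  · rintro V W _ _ a F ⟨m, g, hg, h1, h2⟩
    refine ⟨m, g, hg, fun p _ s hs => ?_, fun b => ?_⟩
    · rw [h1 p s hs, Zt_shear a F hs]
    · rw [h2 b, map_shear, isB_equiv_iff]
  · intro V _ F hF
    refine ⟨Fintype.card V, rename (Fintype.equivFin V) F, (totalDegree_rename_le _ _).trans hF,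
      fun p _ s hs => ?_, fun b => ?_⟩
    · rw [Zt_rename]
    · rw [isB_rename_iff]

lemma MC1_congr {p : ℕ} [Fact p.Prime] {V W : Type} [Fintype V] [Fintype W]
    {f : MvPolynomial V ℤ} {g : MvPolynomial W ℤ}
    (h1 : ∀ s : ℂ, 0 < s.re → Zt p g s = Zt p f s)
    (h2 : ∀ b, IsBFunction (map (Int.castRingHom ℂ) g) b ↔
      IsBFunction (map (Int.castRingHom ℂ) f) b) (h : MC1 p g) : MC1 p f := by
  intro Z hZ hZ2 s₀ h0 b hb
  refine h Z hZ (fun s hs => ?_) s₀ h0 b ((h2 b).2 hb)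
  rw [hZ2 s hs, igusaZeta_eq_Zt, igusaZeta_eq_Zt, h1 s hs]

lemma MC2_congr {p : ℕ} [Fact p.Prime] {V W : Type} [Fintype V] [Fintype W]
    {f : MvPolynomial V ℤ} {g : MvPolynomial W ℤ}
    (h1 : ∀ s : ℂ, 0 < s.re → Zt p g s = Zt p f s)
    (h2 : ∀ b, IsBFunction (map (Int.castRingHom ℂ) g) b ↔
      IsBFunction (map (Int.castRingHom ℂ) f) b) (h : MC2 p g) : MC2 p f := by
  intro Z hZ hZ2 s₀ b hb0 hb
  refine h Z hZ (fun s hs => ?_) s₀ b hb0 ((h2 b).2 hb)
  rw [hZ2 s hs, igusaZeta_eq_Zt, igusaZeta_eq_Zt, h1 s hs]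

/-- **The cubic polynomial of a polynomial.** -/
theorem cubic {n : ℕ} (f : MvPolynomial (Fin n) ℤ) :
    ∃ (N m : ℕ) (g : MvPolynomial (Fin m) ℤ), 1 ≤ N ∧ g.totalDegree ≤ 3 ∧
      (∀ (p : ℕ) [Fact p.Prime] (s : ℂ), 0 < s.re →
        (1 - (p : ℂ) ^ (-(N : ℂ) - s)) * (1 - (p : ℂ) ^ (-1 - s)) * igusaZeta p g s =
          (1 - (p : ℂ)⁻¹) * ((1 - (p : ℂ) ^ (-(N : ℂ))) +
            (p : ℂ) ^ (-(N : ℂ)) * (1 - (p : ℂ) ^ (-s)) * igusaZeta p f (s + N))) ∧
      (∀ b : Polynomial ℂ, IsBFunction (map (Int.castRingHom ℂ) f) b →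
        IsBFunction (map (Int.castRingHom ℂ) g)
          ((Polynomial.X + 1) * b.comp (Polynomial.X + Polynomial.C (N : ℂ)))) ∧
      (∀ (p : ℕ) [Fact p.Prime], MC1 p g → MC1 p f) ∧
      (∀ (p : ℕ) [Fact p.Prime], MC2 p g → MC2 p f) := by
  obtain ⟨ι, _, hι, m, g, hg, h1, h2⟩ := exists_cubic (Option (Fin n)) (yf f)
  refine ⟨Fintype.card ι, m, g, hι, hg, ?_, ?_, ?_, ?_⟩
  · intro p hp s hs
    have hp0 : (p : ℂ) ≠ 0 := by exact_mod_cast hp.out.ne_zero
    have h3 := Zt_main (p := p) (ι := ι) f hs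
    rw [igusaZeta_eq_Zt, igusaZeta_eq_Zt, h1 p s hs]
    have e1 : (p : ℂ) ^ (-(Fintype.card ι : ℂ) - s) =
        ((p : ℂ)⁻¹) ^ (Fintype.card ι) * (p : ℂ) ^ (-s) := by
      rw [sub_eq_add_neg, Complex.cpow_add _ _ hp0, Complex.cpow_neg, Complex.cpow_natCast,
        inv_pow]
    have e2 : (p : ℂ) ^ (-1 - s) = (p : ℂ)⁻¹ * (p : ℂ) ^ (-s) := by
      rw [sub_eq_add_neg, Complex.cpow_add _ _ hp0, Complex.cpow_neg_one]
    have e3 : (p : ℂ) ^ (-(Fintype.card ι : ℂ)) = ((p : ℂ)⁻¹) ^ (Fintype.card ι) := by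
      rw [Complex.cpow_neg, Complex.cpow_natCast, inv_pow]
    rw [e1, e2, e3, h3]
  · intro b hb
    rw [h2, map_stab, map_yf]
    exact isB_stab _ b hb
  · intro p _ h
    exact MC1_of_stab hι f (MC1_congr (fun s hs => h1 p s hs) h2 h)
  · intro p _ h
    exact MC2_of_stab hι f (MC2_congr (fun s hs => h1 p s hs) h2 h)

end Pool.Agent.TH26.Cub
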