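import Pool.Agent.TH26.Cub.Final
import Pool.Agent.W206.CU.Rat

set_option autoImplicit false
set_option linter.unusedSectionVars false

/-! Rational coefficients and arbitrary Haar measures. -/

namespace Pool.Agent.TH26.Cub

open MeasureTheory Pool.Agent.W427.SMC MvPolynomial Filter Topology
open Pool.Agent.H628R4.TP (IsBFunction)
open Pool.Agent.W206.CU

/-- the conclusion of the conjecture for `f` and `p` -/
def PR (p : ℕ) [Fact p.Prime] {V : Type} [Fintype V] (f : MvPolynomial V ℚ) : Prop :=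
  ∀ [MeasurableSpace (V → PadicInt p)] [BorelSpace (V → PadicInt p)],
    ∀ F : ℂ → ℂ, MeromorphicOn F Set.univ →
      (∀ s : ℂ, 0 < s.re →
        F s = ∫ x, ((‖MvPolynomial.eval₂ (algebraMap ℚ (Padic p))
                  (fun i => ((x i : PadicInt p) : Padic p)) f‖ : ℝ) : ℂ) ^ s
                ∂(MeasureTheory.Measure.addHaar : MeasureTheory.Measure (V → PadicInt p))) →
      ∀ s₀ : ℂ, meromorphicOrderAt F s₀ < 0 → ∀ b : Polynomial ℂ,
        IsBFunction (MvPolynomial.map (algebraMap ℚ ℂ) f) b → b.eval (s₀.re : ℂ) = 0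

variable {p : ℕ} [hp : Fact p.Prime]

lemma haar_eq {V : Type} [Fintype V] [ms : MeasurableSpace (V → PadicInt p)]
    [hb : BorelSpace (V → PadicInt p)] :
    ∃ c : ℝ, 0 < c ∧ ∀ (f : MvPolynomial V ℚ) (s : ℂ),
      ∫ x, ((‖MvPolynomial.eval₂ (algebraMap ℚ (Padic p))
                  (fun i => ((x i : PadicInt p) : Padic p)) f‖ : ℝ) : ℂ) ^ s
                ∂(MeasureTheory.Measure.addHaar : MeasureTheory.Measure (V → PadicInt p)) =
        (c : ℂ) * igusaZetaQ p f s := by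
  have key : ∀ (φ : (V → PadicInt p) → ℂ),
      (@integral _ _ _ _ ms (@Measure.addHaarMeasure _ _ _ _ ms hb
        (⊤ : TopologicalSpace.PositiveCompacts (V → ℤ_[p]))) φ) =
      @integral _ _ _ _ (borel _) (@Measure.addHaarMeasure _ _ _ _ (borel _)
        (@BorelSpace.mk _ _ (borel _) rfl)
        (⊤ : TopologicalSpace.PositiveCompacts (V → ℤ_[p]))) φ := by
    intro φ
    obtain rfl := hb.measurable_eq
    rfl
  set K : TopologicalSpace.PositiveCompacts (V → PadicInt p) := ⊤ with hK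
  have h1 : (MeasureTheory.Measure.addHaar : MeasureTheory.Measure (V → PadicInt p)) =
      (MeasureTheory.Measure.addHaar : MeasureTheory.Measure (V → PadicInt p)) K •
        Measure.addHaarMeasure K := Measure.addHaarMeasure_unique _ K
  have hKu : (K : Set (V → PadicInt p)) = Set.univ := rfl
  have h2 : (MeasureTheory.Measure.addHaar : MeasureTheory.Measure (V → PadicInt p)) K ≠ 0 := by
    rw [hKu]
    exact isOpen_univ.measure_ne_zero _ Set.univ_nonempty
  have h3 : (MeasureTheory.Measure.addHaar : MeasureTheory.Measure (V → PadicInt p)) K ≠ ⊤ := by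
    rw [hKu]
    exact isCompact_univ.measure_lt_top.ne
  refine ⟨((MeasureTheory.Measure.addHaar :
    MeasureTheory.Measure (V → PadicInt p)) K).toReal, ENNReal.toReal_pos h2 h3,
    fun f s => ?_⟩
  rw [h1, integral_smul_measure, ← h1, Complex.real_smul, key]
  rfl

lemma igusaZeta_scale {V : Type} [Fintype V] {f : MvPolynomial V ℚ}
    {F : MvPolynomial V ℤ} {N : ℕ} (h : map (Int.castRingHom ℚ) F = C (N : ℚ) * f) (s : ℂ) :
    igusaZeta p F s = ((‖(N : ℚ_[p])‖ : ℝ) : ℂ) ^ s * igusaZetaQ p f s := by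
  unfold igusaZetaQ igusaZeta
  rw [← integral_const_mul]
  congr 1
  funext x
  have h1 := aeval_map_coe p F x
  rw [h, map_mul, aeval_C] at h1
  have h6 := congrArg norm h1
  rw [norm_mul] at h6
  rw [← Complex.mul_cpow_ofReal_nonneg (norm_nonneg _) (norm_nonneg _), ← Complex.ofReal_mul,
    PadicInt.norm_def, ← h6]
  rw [map_natCast]

lemma toC_eq' {V : Type} (F : MvPolynomial V ℤ) :
    map (Int.castRingHom ℂ) F = map (algebraMap ℚ ℂ) (map (Int.castRingHom ℚ) F) := by
  rw [MvPolynomial.map_map]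
  congr 1

theorem PR_of_MC1 {V : Type} [Fintype V] {f : MvPolynomial V ℚ} {F : MvPolynomial V ℤ} {N : ℕ}
    (hN : 0 < N) (h : map (Int.castRingHom ℚ) F = C (N : ℚ) * f) (hF : MC1 p F) : PR p f := by
  intro _ _ Z hZ hZ2 s₀ h0 b hb
  obtain ⟨c, hc, hc2⟩ := haar_eq (p := p) (V := V)
  have hc0 : (c : ℂ) ≠ 0 := by exact_mod_cast hc.ne'
  have hN0 : ((‖(N : ℚ_[p])‖ : ℝ) : ℂ) ≠ 0 := by
    have : (N : ℚ_[p]) ≠ 0 := by exact_mod_cast hN.ne'
    exact_mod_cast (norm_ne_zero_iff.2 this)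
  set u : ℂ → ℂ := fun s => (c : ℂ)⁻¹ * ((‖(N : ℚ_[p])‖ : ℝ) : ℂ) ^ s with hu
  have hua : ∀ s, AnalyticAt ℂ u s := by
    have : Differentiable ℂ u := fun s =>
      ((differentiableAt_id).const_cpow (Or.inl hN0)).const_mul _
    exact fun s => this.analyticAt s
  have hu0 : ∀ s, u s ≠ 0 := fun s => by
    refine mul_ne_zero (inv_ne_zero hc0) ?_
    rw [Complex.cpow_def_of_ne_zero hN0]
    exact Complex.exp_ne_zero _
  refine hF (u * Z) (fun s _ => (hua s).meromorphicAt.mul (hZ s trivial)) (fun s hs => ?_) s₀ ?_ b ?_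
  · rw [Pi.mul_apply, hZ2 s hs, hc2, igusaZeta_scale h]
    simp only [hu]
    field_simp
  · rw [meromorphicOrderAt_mul_of_ne_zero (hua s₀) (hu0 s₀)]
    exact h0
  · rw [toC_eq', h, map_mul, map_C]
    refine isBFunction_smul ?_ hb
    rw [map_natCast]
    exact_mod_cast hN.ne'

theorem MC1_of_PR {V : Type} [Fintype V] {g : MvPolynomial V ℤ}
    (hg : PR p (map (Int.castRingHom ℚ) g)) : MC1 p g := by
  intro Z hZ hZ2 s₀ h0 b hb
  let _ : MeasurableSpace (V → PadicInt p) := borel _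
  have : BorelSpace (V → PadicInt p) := ⟨rfl⟩
  obtain ⟨c, hc, hc2⟩ := haar_eq (p := p) (V := V)
  have hc0 : (c : ℂ) ≠ 0 := by exact_mod_cast hc.ne'
  have hca : AnalyticAt ℂ (fun _ : ℂ => (c : ℂ)) s₀ := analyticAt_const
  refine hg ((fun _ => (c : ℂ)) * Z) (fun s _ => (MeromorphicAt.const _ _).mul (hZ s trivial))
    (fun s hs => ?_) s₀ ?_ b (by rwa [← toC_eq'])
  · have e1 : map (Int.castRingHom ℚ) g = C ((1 : ℕ) : ℚ) * map (Int.castRingHom ℚ) g := by simp
    have e2 : ¬ p ∣ 1 := fun h => hp.out.one_lt.ne' (Nat.dvd_one.1 h)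
    rw [hc2, Pi.mul_apply, hZ2 s hs, igusaZetaQ_eq p e1 e2]
  · rw [meromorphicOrderAt_mul_of_ne_zero hca hc0]
    exact h0

end Pool.Agent.TH26.Cub
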