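import Pool.Agent.W427.SMC.Pa1
import Pool.Agent.W427.SMC.Defs

set_option autoImplicit false
set_option linter.unusedSectionVars false

/-! The integral of `‖t + u₁ v₁ + ⋯ + u_N v_N‖ ^ s` over `(u, v) ∈ (ℤ_p ^ N) ^ 2`. -/

namespace Pool.Agent.TH26.Cub

open MeasureTheory Pool.Agent.W427.SMC
open scoped ENNReal

variable (p : ℕ) [hp : Fact p.Prime]

attribute [local instance] msZ bsZ

/-- `‖t‖ ^ s` -/
noncomputable def nm (t : ℤ_[p]) (s : ℂ) : ℂ := ((‖t‖ : ℝ) : ℂ) ^ s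

lemma nm_meas (s : ℂ) : Measurable (fun t : ℤ_[p] => nm p t s) := by
  unfold nm
  exact (Complex.measurable_ofReal.comp continuous_norm.measurable).pow_const s

variable {p}

lemma nm_le (t : ℤ_[p]) {s : ℂ} (hs : 0 < s.re) : ‖nm p t s‖ ≤ 1 := by
  unfold nm
  rw [Complex.norm_cpow_eq_rpow_re_of_nonneg (norm_nonneg _) hs.ne']
  exact Real.rpow_le_one (norm_nonneg _) (PadicInt.norm_le_one t) hs.le

lemma nm_unit {t : ℤ_[p]} (ht : ‖t‖ = 1) (s : ℂ) : nm p t s = 1 := by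
  unfold nm
  rw [ht]
  simp

lemma nm_zero {s : ℂ} (hs : 0 < s.re) : nm p (0 : ℤ_[p]) s = 0 := by
  unfold nm
  rw [norm_zero, Complex.ofReal_zero, Complex.zero_cpow]
  rintro rfl
  simp at hs

lemma nm_p (t : ℤ_[p]) (s : ℂ) : nm p ((p : ℤ_[p]) * t) s = (p : ℂ) ^ (-s) * nm p t s := by
  have hp0 : (0 : ℝ) ≤ p := Nat.cast_nonneg _
  unfold nm
  rw [norm_mul, PadicInt.norm_p, Complex.ofReal_mul,
    Complex.mul_cpow_ofReal_nonneg (inv_nonneg.2 hp0) (norm_nonneg _)]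
  congr 1
  rw [Complex.ofReal_inv, Complex.ofReal_natCast, Complex.inv_cpow, Complex.cpow_neg]
  rw [← Complex.ofReal_natCast, Complex.arg_ofReal_of_nonneg hp0]
  exact Real.pi_ne_zero.symm

lemma integrable_nm {α : Type} [MeasurableSpace α] (μ : Measure α) [IsFiniteMeasure μ]
    (g : α → ℤ_[p]) (hg : Measurable g) {s : ℂ} (hs : 0 < s.re) :
    Integrable (fun a => nm p (g a) s) μ :=
  Integrable.of_bound ((nm_meas p s).comp hg).aestronglyMeasurable 1
    (Filter.Eventually.of_forall fun a => nm_le (g a) hs)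

/-- self-similarity, as an equality of measures -/
theorem mu_step : mu p = ((p : ℝ≥0∞)⁻¹) • ∑ w : ZMod (p ^ 1),
    (mu p).map (fun z => (w.val : ℤ_[p]) + (p : ℤ_[p]) ^ 1 * z) := by
  have hp' : NeZero (p ^ 1) := ⟨pow_ne_zero _ hp.out.ne_zero⟩
  refine Measure.ext_of_lintegral _ fun g hg => ?_
  rw [lintegral_sm p 1 g hg, lintegral_smul_measure, lintegral_finsetSum_measure, sm, smul_eq_mul,
    Finset.mul_sum]
  refine Finset.sum_congr rfl fun w _ => ?_
  rw [lintegral_map hg (meas_aff p 1 _), pow_one]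

theorem integral_step (g : ℤ_[p] → ℂ) (hg : Measurable g) (hb : ∀ z, ‖g z‖ ≤ 1) :
    ∫ z, g z ∂(mu p) = (p : ℂ)⁻¹ * ∑ w ∈ Finset.range p,
      ∫ z, g ((w : ℤ_[p]) + (p : ℤ_[p]) * z) ∂(mu p) := by
  have hp' : NeZero (p ^ 1) := ⟨pow_ne_zero _ hp.out.ne_zero⟩
  have hint : ∀ w : ZMod (p ^ 1), Integrable g
      ((mu p).map (fun z => (w.val : ℤ_[p]) + (p : ℤ_[p]) ^ 1 * z)) := by
    intro w
    have : IsProbabilityMeasure ((mu p).map (fun z => (w.val : ℤ_[p]) + (p : ℤ_[p]) ^ 1 * z)) :=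
      Measure.isProbabilityMeasure_map (meas_aff p 1 _).aemeasurable
    exact Integrable.of_bound hg.aestronglyMeasurable 1 (Filter.Eventually.of_forall hb)
  conv_lhs => rw [mu_step]
  rw [integral_smul_measure, integral_finsetSum_measure (fun w _ => hint w)]
  have h1 : ∀ w : ZMod (p ^ 1), ∫ z, g z ∂((mu p).map
      (fun z => (w.val : ℤ_[p]) + (p : ℤ_[p]) ^ 1 * z)) =
      ∫ z, g ((w.val : ℤ_[p]) + (p : ℤ_[p]) * z) ∂(mu p) := by
    intro w
    rw [integral_map (meas_aff p 1 _).aemeasurable hg.aestronglyMeasurable]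
    simp only [pow_one]
  simp only [h1]
  have h2 : ∑ w : ZMod (p ^ 1), ∫ z, g ((w.val : ℤ_[p]) + (p : ℤ_[p]) * z) ∂(mu p) =
      ∑ w ∈ Finset.range p, ∫ z, g ((w : ℤ_[p]) + (p : ℤ_[p]) * z) ∂(mu p) := by
    refine Finset.sum_nbij' (fun w => w.val) (fun n => (n : ZMod (p ^ 1))) ?_ ?_ ?_ ?_ ?_
    · intro w _
      exact Finset.mem_range.2 (lt_of_lt_of_eq (ZMod.val_lt w) (pow_one p))
    · intro w _
      exact Finset.mem_univ _
    · intro w _
      exact ZMod.natCast_zmod_val w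
    · intro w hw
      exact ZMod.val_cast_of_lt (lt_of_lt_of_eq (Finset.mem_range.1 hw) (pow_one p).symm)
    · intro w _
      rfl
  rw [h2, ENNReal.toReal_inv, ENNReal.toReal_natCast, Complex.real_smul]
  push_cast
  rfl

lemma norm_add_p (w : ℕ) (hw : ¬ p ∣ w) (z : ℤ_[p]) :
    ‖(w : ℤ_[p]) + (p : ℤ_[p]) * z‖ = 1 := by
  by_contra h
  have h1 : ‖(w : ℤ_[p]) + (p : ℤ_[p]) * z‖ < 1 := lt_of_le_of_ne (PadicInt.norm_le_one _) h
  rw [PadicInt.norm_lt_one_iff_dvd] at h1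
  have h2 : (p : ℤ_[p]) ∣ (w : ℤ_[p]) := (dvd_add_left ⟨z, rfl⟩).1 h1
  exact hw ((p_dvd_natCast p w).1 h2)

/-- the constant `∫ ‖v‖ ^ s` -/
noncomputable def cs (p : ℕ) [Fact p.Prime] (s : ℂ) : ℂ := ∫ v, nm p v s ∂(mu p)

lemma sum_range_split (h : ℕ → ℂ) (c : ℂ) (hc : ∀ w, ¬ p ∣ w → h w = c) :
    ∑ w ∈ Finset.range p, h w = h 0 + ((p : ℂ) - 1) * c := by
  obtain ⟨q, hq⟩ : ∃ q, p = q + 1 := ⟨p - 1, by have := hp.out.pos; omega⟩
  have h1 : ∑ w ∈ Finset.range p, h w = ∑ w ∈ Finset.range (q + 1), h w := by rw [hq]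
  rw [h1, Finset.sum_range_succ', add_comm]
  congr 1
  have h2 : ∀ w ∈ Finset.range q, h (w + 1) = c := by
    intro w hw
    refine hc _ fun hd => ?_
    have := Nat.le_of_dvd (Nat.succ_pos w) hd
    have := Finset.mem_range.1 hw
    omega
  rw [Finset.sum_congr rfl h2, Finset.sum_const, Finset.card_range, nsmul_eq_mul]
  congr 1
  have h3 : ((p : ℕ) : ℂ) = (q : ℂ) + 1 := by
    conv_lhs => rw [hq]
    push_cast
    ring
  rw [h3]; ring

theorem cs_eq {s : ℂ} (hs : 0 < s.re) :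
    (1 - (p : ℂ)⁻¹ * (p : ℂ) ^ (-s)) * cs p s = 1 - (p : ℂ)⁻¹ := by
  have hp0 : (p : ℂ) ≠ 0 := by exact_mod_cast hp.out.ne_zero
  have h1 := integral_step (p := p) (fun z => nm p z s) (nm_meas p s) (fun z => nm_le z hs)
  rw [sum_range_split _ 1] at h1
  · have h2 : ∫ z, nm p (((0 : ℕ) : ℤ_[p]) + (p : ℤ_[p]) * z) s ∂(mu p) =
        (p : ℂ) ^ (-s) * cs p s := by
      simp only [Nat.cast_zero, zero_add, nm_p]
      rw [integral_const_mul]
      rfl
    rw [h2] at h1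
    change cs p s = _ at h1
    have h3 : (p : ℂ)⁻¹ * (p : ℂ) = 1 := inv_mul_cancel₀ hp0
    linear_combination h1 + h3
  · intro w hw
    have : ∀ z : ℤ_[p], nm p ((w : ℤ_[p]) + (p : ℤ_[p]) * z) s = 1 := fun z =>
      nm_unit (norm_add_p w hw z) s
    simp only [this]
    simp

/-- multiplication by a unit preserves the measure -/
lemma map_unit (u : ℤ_[p]) (hu : ‖u‖ = 1) : (mu p).map (fun v => u * v) = mu p := by
  have hm : Measurable (fun v : ℤ_[p] => u * v) := (continuous_const.mul continuous_id).measurable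
  have : IsProbabilityMeasure ((mu p).map (fun v => u * v)) :=
    Measure.isProbabilityMeasure_map hm.aemeasurable
  have hinv : ((mu p).map (fun v => u * v)).IsAddLeftInvariant := by
    refine ⟨fun t => ?_⟩
    obtain ⟨e, he⟩ := PadicInt.isUnit_iff.2 hu
    rw [Measure.map_map (measurable_const_add t) hm]
    have h1 : (fun x => t + x) ∘ (fun v => u * v) =
        (fun v => u * v) ∘ (fun x => (↑e⁻¹ * t) + x) := by
      funext v
      show t + u * v = u * (↑e⁻¹ * t + v)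
      rw [mul_add, ← mul_assoc, ← he, Units.mul_inv, one_mul]
    rw [h1, ← Measure.map_map hm (measurable_const_add _), map_add_left_eq_self]
  exact mu_unique p _

lemma inner_unit (t u : ℤ_[p]) (hu : ‖u‖ = 1) (s : ℂ) :
    ∫ v, nm p (t + u * v) s ∂(mu p) = cs p s := by
  have hm : Measurable (fun v : ℤ_[p] => u * v) := (continuous_const.mul continuous_id).measurable
  have h1 : ∫ v, nm p (t + u * v) s ∂(mu p) =
      ∫ v, nm p (t + v) s ∂((mu p).map (fun v => u * v)) := by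
    have hf : AEStronglyMeasurable (fun v => nm p (t + v) s) ((mu p).map (fun v => u * v)) :=
      ((nm_meas p s).comp (measurable_const_add t)).aestronglyMeasurable
    rw [integral_map hm.aemeasurable hf]
  rw [h1, map_unit u hu]
  exact integral_add_left_eq_self (fun v => nm p v s) t

/-- the integral over one pair -/
noncomputable def I1 (p : ℕ) [Fact p.Prime] (t : ℤ_[p]) (s : ℂ) : ℂ :=
  ∫ u, ∫ v, nm p (t + u * v) s ∂(mu p) ∂(mu p)

lemma inner_meas (t : ℤ_[p]) (s : ℂ) :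
    StronglyMeasurable (fun u : ℤ_[p] => ∫ v, nm p (t + u * v) s ∂(mu p)) := by
  have h : StronglyMeasurable (fun w : ℤ_[p] × ℤ_[p] => nm p (t + w.1 * w.2) s) := by
    refine ((nm_meas p s).comp ?_).stronglyMeasurable
    exact (continuous_const.add (continuous_fst.mul continuous_snd)).measurable
  exact h.integral_prod_right'

lemma inner_le (t u : ℤ_[p]) {s : ℂ} (hs : 0 < s.re) :
    ‖∫ v, nm p (t + u * v) s ∂(mu p)‖ ≤ 1 := by
  refine (norm_integral_le_of_norm_le_const (C := 1)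
    (Filter.Eventually.of_forall fun v => nm_le _ hs)).trans ?_
  simp

lemma I1_step (t : ℤ_[p]) {s : ℂ} (hs : 0 < s.re) :
    I1 p t s = (p : ℂ)⁻¹ * (∫ z, ∫ v, nm p (t + ((p : ℤ_[p]) * z) * v) s ∂(mu p) ∂(mu p)) +
      (1 - (p : ℂ)⁻¹) * cs p s := by
  have hp0 : (p : ℂ) ≠ 0 := by exact_mod_cast hp.out.ne_zero
  have h1 := integral_step (p := p) (fun u => ∫ v, nm p (t + u * v) s ∂(mu p))
    (inner_meas t s).measurable (fun u => inner_le t u hs)
  rw [sum_range_split _ (cs p s)] at h1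
  · change I1 p t s = _ at h1
    simp only [Nat.cast_zero, zero_add] at h1
    rw [h1]
    have h3 : (p : ℂ)⁻¹ * (p : ℂ) = 1 := inv_mul_cancel₀ hp0
    linear_combination (cs p s) * h3
  · intro w hw
    have : ∀ z : ℤ_[p], ∫ v, nm p (t + ((w : ℤ_[p]) + (p : ℤ_[p]) * z) * v) s ∂(mu p) = cs p s :=
      fun z => inner_unit t _ (norm_add_p w hw z) s
    simp only [this]
    simp

lemma I1_unit (t : ℤ_[p]) (ht : ‖t‖ = 1) {s : ℂ} (hs : 0 < s.re) :
    I1 p t s = (p : ℂ)⁻¹ + (1 - (p : ℂ)⁻¹) * cs p s := by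
  rw [I1_step t hs]
  congr 1
  have h : ∀ z v : ℤ_[p], nm p (t + ((p : ℤ_[p]) * z) * v) s = 1 := by
    intro z v
    refine nm_unit ?_ s
    by_contra h
    have h1 : ‖t + ((p : ℤ_[p]) * z) * v‖ < 1 := lt_of_le_of_ne (PadicInt.norm_le_one _) h
    rw [PadicInt.norm_lt_one_iff_dvd] at h1
    have h2 : (p : ℤ_[p]) ∣ t := (dvd_add_left ⟨z * v, by ring⟩).1 h1
    rw [← PadicInt.norm_lt_one_iff_dvd, ht] at h2
    exact lt_irrefl _ h2
  simp only [h]
  simp

lemma I1_p (t : ℤ_[p]) {s : ℂ} (hs : 0 < s.re) :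
    I1 p ((p : ℤ_[p]) * t) s = (p : ℂ)⁻¹ * ((p : ℂ) ^ (-s) * I1 p t s) +
      (1 - (p : ℂ)⁻¹) * cs p s := by
  rw [I1_step _ hs]
  congr 2
  unfold I1
  rw [← integral_const_mul]
  refine integral_congr_ae (Filter.Eventually.of_forall fun z => ?_)
  show ∫ v, nm p ((p : ℤ_[p]) * t + ((p : ℤ_[p]) * z) * v) s ∂(mu p) =
    (p : ℂ) ^ (-s) * ∫ v, nm p (t + z * v) s ∂(mu p)
  rw [← integral_const_mul]
  refine integral_congr_ae (Filter.Eventually.of_forall fun v => ?_)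
  show nm p ((p : ℤ_[p]) * t + ((p : ℤ_[p]) * z) * v) s = (p : ℂ) ^ (-s) * nm p (t + z * v) s
  rw [← nm_p]
  congr 1
  ring

lemma norm_T {s : ℂ} (hs : 0 < s.re) : ‖(p : ℂ) ^ (-s)‖ < 1 := by
  have hp1 : (1 : ℝ) < p := by exact_mod_cast hp.out.one_lt
  rw [← Complex.ofReal_natCast, Complex.norm_cpow_eq_rpow_re_of_pos (by linarith)]
  rw [Complex.neg_re]
  exact Real.rpow_lt_one_of_one_lt_of_neg hp1 (by linarith)

lemma D_ne {s : ℂ} (hs : 0 < s.re) : 1 - (p : ℂ)⁻¹ * (p : ℂ) ^ (-s) ≠ 0 := by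
  intro h
  have h1 : (1 : ℂ) = (p : ℂ)⁻¹ * (p : ℂ) ^ (-s) := sub_eq_zero.1 h
  have h2 := congrArg norm h1
  rw [norm_one, norm_mul, norm_inv, Complex.norm_natCast] at h2
  have h3 := norm_T (p := p) hs
  have hp1 : (1 : ℝ) < p := by exact_mod_cast hp.out.one_lt
  have h4 : (p : ℝ)⁻¹ ≤ 1 := inv_le_one_of_one_le₀ hp1.le
  nlinarith [norm_nonneg ((p : ℂ) ^ (-s)), inv_pos.2 (lt_trans one_pos hp1)]

/-- the coefficient -/
noncomputable def b1 (p : ℕ) [Fact p.Prime] (s : ℂ) : ℂ :=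
  (p : ℂ)⁻¹ - (p : ℂ)⁻¹ * (p : ℂ) ^ (-s) * cs p s ^ 2

theorem I1_eq (t : ℤ_[p]) {s : ℂ} (hs : 0 < s.re) :
    I1 p t s = cs p s ^ 2 + b1 p s * nm p t (s + 1) := by
  have hp0 : (p : ℂ) ≠ 0 := by exact_mod_cast hp.out.ne_zero
  have hc := cs_eq (p := p) hs
  have hD := D_ne (p := p) hs
  have hTs : (p : ℂ) ^ (-(s + 1)) = (p : ℂ)⁻¹ * (p : ℂ) ^ (-s) := by
    rw [neg_add, Complex.cpow_add _ _ hp0, Complex.cpow_neg_one]; ring
  by_cases ht : t = 0
  · subst ht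
    have h1 := I1_p (p := p) (0 : ℤ_[p]) hs
    rw [mul_zero] at h1
    rw [nm_zero (by rw [Complex.add_re, Complex.one_re]; linarith), mul_zero, add_zero]
    refine mul_left_cancel₀ hD ?_
    linear_combination h1 - (cs p s) * hc
  · have key : ∀ (k : ℕ) (e : ℤ_[p]), ‖e‖ = 1 →
        I1 p ((p : ℤ_[p]) ^ k * e) s =
          cs p s ^ 2 + b1 p s * nm p ((p : ℤ_[p]) ^ k * e) (s + 1) := by
      intro k
      induction k with
      | zero =>
        intro e he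
        rw [pow_zero, one_mul, I1_unit e he hs, nm_unit he, b1]
        linear_combination (- cs p s) * hc
      | succ k ih =>
        intro e he
        have h1 : (p : ℤ_[p]) ^ (k + 1) * e = (p : ℤ_[p]) * ((p : ℤ_[p]) ^ k * e) := by ring
        rw [h1, I1_p _ hs, ih e he, nm_p, hTs, b1]
        linear_combination (- cs p s) * hc
    have h2 := key t.valuation ((PadicInt.unitCoeff ht : ℤ_[p]ˣ) : ℤ_[p]) (PadicInt.norm_units _)
    have h3 : t = (p : ℤ_[p]) ^ t.valuation * ((PadicInt.unitCoeff ht : ℤ_[p]ˣ) : ℤ_[p]) := by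
      conv_lhs => rw [PadicInt.unitCoeff_spec ht]
      rw [mul_comm]
    rw [← h3] at h2
    exact h2

end Pool.Agent.TH26.Cub
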