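import Pool.Agent.TH26.Cub.Weyl

set_option autoImplicit false

/-! The functional equation of `y f(x) + ∑ u_i v_i` from the functional equation of `f`. -/

namespace Pool.Agent.TH26.Cub

open MvPolynomial Pool.Agent.H628R4.TP

/-- The polynomial `h + ∑_i u_i v_i` in the variables of `h` and the further variables `u_i, v_i`,
`i ∈ ι`. -/
noncomputable def stab {R : Type} [CommRing R] {τ : Type} (ι : Type) [Fintype ι]
    (h : MvPolynomial τ R) : MvPolynomial (τ ⊕ (ι ⊕ ι)) R :=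
  rename Sum.inl h + ∑ i, X (Sum.inr (Sum.inl i)) * X (Sum.inr (Sum.inr i))

/-- The polynomial `y f` in the variables of `f` and the further variable `y`. -/
noncomputable def yf {R : Type} [CommRing R] {σ : Type} (f : MvPolynomial σ R) :
    MvPolynomial (Option σ) R := X none * rename some f

section
variable {σ τ : Type}

lemma lift_op (j : σ → τ) (hj : Function.Injective j) (A : Module.End ℂ (MvPolynomial σ ℂ))
    (hA : A ∈ weylS σ) : ∃ B : weylS τ, ∀ (g : MvPolynomial σ ℂ)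
      (r : MvPolynomial τ ℂ), (∀ i, pderiv (j i) r = 0) →
      (B : Module.End ℂ (MvPolynomial τ ℂ)) (rename j g * r) = rename j (A g) * r := by
  unfold weylS at hA
  induction hA using Algebra.adjoin_induction with
  | mem A hA =>
    rcases hA with ⟨i, rfl⟩ | ⟨i, rfl⟩
    · refine ⟨⟨_, mulLeft_mem_X (j i)⟩, fun g r _ => ?_⟩
      simp [mul_assoc]
    · refine ⟨⟨_, pderiv_mem (j i)⟩, fun g r hr => ?_⟩
      show pderiv (j i) (rename j g * r) = rename j (pderiv i g) * r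
      rw [Derivation.leibniz, hr i, smul_zero, zero_add, smul_eq_mul, pderiv_rename hj, mul_comm]
  | algebraMap c =>
    refine ⟨⟨_, Subalgebra.algebraMap_mem _ c⟩, fun g r _ => ?_⟩
    simp [Module.algebraMap_end_apply]
  | add A₁ A₂ _ _ h₁ h₂ =>
    obtain ⟨B₁, h₁⟩ := h₁
    obtain ⟨B₂, h₂⟩ := h₂
    refine ⟨B₁ + B₂, fun g r hr => ?_⟩
    show (B₁ : Module.End ℂ (MvPolynomial τ ℂ)) _ + (B₂ : Module.End ℂ (MvPolynomial τ ℂ)) _ = _
    rw [h₁ g r hr, h₂ g r hr, LinearMap.add_apply, map_add, add_mul]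
  | mul A₁ A₂ _ _ h₁ h₂ =>
    obtain ⟨B₁, h₁⟩ := h₁
    obtain ⟨B₂, h₂⟩ := h₂
    refine ⟨B₁ * B₂, fun g r hr => ?_⟩
    show (B₁ : Module.End ℂ (MvPolynomial τ ℂ)) ((B₂ : Module.End ℂ (MvPolynomial τ ℂ)) _) = _
    rw [h₂ g r hr, h₁ _ r hr, Module.End.mul_apply]

/-- `y ∂_y` -/
noncomputable def theta (y : τ) : weylS τ := ⟨_, mulLeft_mem_X y⟩ * ⟨_, pderiv_mem y⟩

lemma theta_apply (y : τ) (g : MvPolynomial τ ℂ) :
    (theta y : Module.End ℂ (MvPolynomial τ ℂ)) g = X y * pderiv y g := rfl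

lemma theta_pow (y : τ) (k : ℕ) (r : MvPolynomial τ ℂ) (hr : pderiv y r = 0) :
    (theta y : Module.End ℂ (MvPolynomial τ ℂ)) (X y ^ k * r) = (k : ℂ) • (X y ^ k * r) := by
  rw [theta_apply, Derivation.leibniz, hr, smul_zero, zero_add, Derivation.leibniz_pow,
    pderiv_X_self]
  cases k with
  | zero => simp
  | succ k =>
    simp only [Nat.add_sub_cancel, smul_eq_mul, nsmul_eq_mul, mul_one, MvPolynomial.smul_eq_C_mul]
    push_cast
    simp only [map_add, map_natCast, map_one]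
    ring

lemma theta_powm (y : τ) (k m : ℕ) (r : MvPolynomial τ ℂ) (hr : pderiv y r = 0) :
    ((theta y ^ m : weylS τ) : Module.End ℂ (MvPolynomial τ ℂ)) (X y ^ k * r) =
      ((k : ℂ) ^ m) • (X y ^ k * r) := by
  induction m with
  | zero => simp
  | succ m ih =>
    rw [pow_succ]
    show ((theta y ^ m : weylS τ) : Module.End ℂ (MvPolynomial τ ℂ))
      ((theta y : Module.End ℂ (MvPolynomial τ ℂ)) _) = _
    rw [theta_pow y k r hr, map_smul, ih, smul_smul, pow_succ, mul_comm]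

lemma aeval_theta (y : τ) (k : ℕ) (b : Polynomial ℂ) (r : MvPolynomial τ ℂ)
    (hr : pderiv y r = 0) :
    ((Polynomial.aeval (theta y) b : weylS τ) : Module.End ℂ (MvPolynomial τ ℂ)) (X y ^ k * r) =
      (b.eval (k : ℂ)) • (X y ^ k * r) := by
  induction b using Polynomial.induction_on' with
  | add p q hp hq =>
    rw [map_add, Polynomial.eval_add, add_smul, ← hp, ← hq]
    rfl
  | monomial m c =>
    rw [Polynomial.aeval_monomial, Polynomial.eval_monomial]
    show (algebraMap ℂ (Module.End ℂ (MvPolynomial τ ℂ)) c)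
      (((theta y ^ m : weylS τ) : Module.End ℂ (MvPolynomial τ ℂ)) (X y ^ k * r)) = _
    rw [theta_powm y k m r hr, Module.algebraMap_end_apply, smul_smul]

end

section
variable {σ ι : Type} [Fintype ι]

/-- the variables of `f` -/
def jv (ι : Type) (i : σ) : Option σ ⊕ (ι ⊕ ι) := Sum.inl (some i)

omit [Fintype ι] in
lemma jv_inj : Function.Injective (jv (σ := σ) ι) := fun _ _ h =>
  Option.some_injective _ (Sum.inl_injective h)

/-- the quadratic form -/
noncomputable def QQ (σ ι : Type) [Fintype ι] : MvPolynomial (Option σ ⊕ (ι ⊕ ι)) ℂ :=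
  ∑ i, X (Sum.inr (Sum.inl i)) * X (Sum.inr (Sum.inr i))

lemma stab_yf (f : MvPolynomial σ ℂ) :
    stab ι (yf f) = X (Sum.inl none) * rename (jv ι) f + QQ σ ι := by
  unfold stab yf QQ
  rw [map_mul, rename_X, rename_rename]
  rfl

lemma pderiv_QQ (v : Option σ) : pderiv (Sum.inl v) (QQ σ ι) = 0 := by
  classical
  unfold QQ
  rw [map_sum]
  refine Finset.sum_eq_zero fun i _ => ?_
  rw [Derivation.leibniz, pderiv_X_of_ne (by simp), pderiv_X_of_ne (by simp)]
  simp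

omit [Fintype ι] in
lemma pderiv_rename_none (f : MvPolynomial σ ℂ) :
    pderiv (Sum.inl none) (rename (jv ι) f) = 0 := by
  classical
  refine pderiv_eq_zero_of_notMem_vars fun h => ?_
  obtain ⟨i, _, hi⟩ := Finset.mem_image.1 (vars_rename (jv ι) f h)
  exact absurd (Sum.inl_injective hi) (by simp)

/-- the first operator -/
theorem exists_T (f : MvPolynomial σ ℂ) (b : Polynomial ℂ) (h : IsBFunction f b) :
    ∃ T : weylS (Option σ ⊕ (ι ⊕ ι)), ∀ s : ℕ,
      (T : Module.End ℂ (MvPolynomial (Option σ ⊕ (ι ⊕ ι)) ℂ)) (stab ι (yf f) ^ (s + 1)) =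
        ((s : ℂ) + 1) • ((Polynomial.aeval (theta (Sum.inl none)) b :
          weylS (Option σ ⊕ (ι ⊕ ι))) :
          Module.End ℂ (MvPolynomial (Option σ ⊕ (ι ⊕ ι)) ℂ)) (stab ι (yf f) ^ s) := by
  classical
  obtain ⟨P, hP⟩ := h
  choose B hB using fun m => lift_op (jv ι) (jv_inj (σ := σ) (ι := ι)) (P m) (P m).2
  set y : Option σ ⊕ (ι ⊕ ι) := Sum.inl none with hy
  set D : weylS (Option σ ⊕ (ι ⊕ ι)) := ⟨_, pderiv_mem y⟩ with hD
  refine ⟨∑ m ∈ P.support, B m * theta y ^ m * D, fun s => ?_⟩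
  have hY : ∀ k l : ℕ, ∀ i : σ, pderiv (jv ι i) ((X y : MvPolynomial _ ℂ) ^ k * QQ σ ι ^ l) = 0 := by
    intro k l i
    rw [Derivation.leibniz, Derivation.leibniz_pow, Derivation.leibniz_pow,
      pderiv_X_of_ne (by simp [hy, jv]), show pderiv (jv ι i) (QQ σ ι) = 0 from pderiv_QQ (some i)]
    simp
  have hF : ∀ k l : ℕ, pderiv y (rename (jv ι) f ^ k * QQ σ ι ^ l) = 0 := by
    intro k l
    rw [Derivation.leibniz, Derivation.leibniz_pow, Derivation.leibniz_pow,
      show pderiv y (QQ σ ι) = 0 from pderiv_QQ none,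
      show pderiv y (rename (jv ι) f) = 0 from pderiv_rename_none f]
    simp
  have hkey : ∀ k l : ℕ, ((∑ m ∈ P.support, B m * theta y ^ m * D :
      weylS (Option σ ⊕ (ι ⊕ ι))) : Module.End ℂ (MvPolynomial (Option σ ⊕ (ι ⊕ ι)) ℂ))
      ((X y * rename (jv ι) f) ^ (k + 1) * QQ σ ι ^ l) =
      ((k : ℂ) + 1) • (b.eval (k : ℂ)) • ((X y * rename (jv ι) f) ^ k * QQ σ ι ^ l) := by
    intro k l
    have h1 : (D : Module.End ℂ (MvPolynomial (Option σ ⊕ (ι ⊕ ι)) ℂ))
        ((X y * rename (jv ι) f) ^ (k + 1) * QQ σ ι ^ l) =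
        ((k : ℂ) + 1) • (X y ^ k * (rename (jv ι) f ^ (k + 1) * QQ σ ι ^ l)) := by
      show pderiv y _ = _
      rw [mul_pow, mul_assoc, Derivation.leibniz, hF, smul_zero, zero_add, Derivation.leibniz_pow,
        pderiv_X_self]
      simp only [Nat.add_sub_cancel, smul_eq_mul, nsmul_eq_mul, mul_one,
        MvPolynomial.smul_eq_C_mul]
      push_cast
      simp only [map_add, map_natCast, map_one]
      ring
    have h2 : ∀ m, ((B m * theta y ^ m * D : weylS (Option σ ⊕ (ι ⊕ ι))) :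
        Module.End ℂ (MvPolynomial (Option σ ⊕ (ι ⊕ ι)) ℂ))
        ((X y * rename (jv ι) f) ^ (k + 1) * QQ σ ι ^ l) =
        ((k : ℂ) + 1) • (X y ^ k * QQ σ ι ^ l * rename (jv ι) (((k : ℂ) ^ m) •
          (P m : Module.End ℂ (MvPolynomial σ ℂ)) (f ^ (k + 1)))) := by
      intro m
      show (B m : Module.End ℂ (MvPolynomial (Option σ ⊕ (ι ⊕ ι)) ℂ))
        (((theta y ^ m : weylS _) : Module.End ℂ (MvPolynomial (Option σ ⊕ (ι ⊕ ι)) ℂ))
        ((D : Module.End ℂ (MvPolynomial (Option σ ⊕ (ι ⊕ ι)) ℂ)) _)) = _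
      rw [h1, map_smul, theta_powm y k m _ (hF _ _), map_smul, map_smul]
      congr 1
      have h3 : (X y : MvPolynomial (Option σ ⊕ (ι ⊕ ι)) ℂ) ^ k *
          (rename (jv ι) f ^ (k + 1) * QQ σ ι ^ l) =
          rename (jv ι) (f ^ (k + 1)) * (X y ^ k * QQ σ ι ^ l) := by
        rw [map_pow]; ring
      rw [h3, hB m _ _ (hY k l), map_smul]
      simp only [MvPolynomial.smul_eq_C_mul]
      ring
    rw [AddSubmonoidClass.coe_finsetSum, LinearMap.sum_apply]
    simp only [h2]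
    rw [← Finset.smul_sum, ← Finset.mul_sum, ← map_sum]
    have h4 := hP k
    rw [Finsupp.sum] at h4
    rw [← h4, map_mul, rename_C, map_pow, mul_pow]
    simp only [MvPolynomial.smul_eq_C_mul]
    ring
  have hzero : ∀ l : ℕ, ((∑ m ∈ P.support, B m * theta y ^ m * D :
      weylS (Option σ ⊕ (ι ⊕ ι))) : Module.End ℂ (MvPolynomial (Option σ ⊕ (ι ⊕ ι)) ℂ))
      ((X y * rename (jv ι) f) ^ 0 * QQ σ ι ^ l) = 0 := by
    intro l
    rw [AddSubmonoidClass.coe_finsetSum, LinearMap.sum_apply]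
    refine Finset.sum_eq_zero fun m _ => ?_
    show (B m : Module.End ℂ (MvPolynomial (Option σ ⊕ (ι ⊕ ι)) ℂ))
        (((theta y ^ m : weylS _) : Module.End ℂ (MvPolynomial (Option σ ⊕ (ι ⊕ ι)) ℂ))
        (pderiv y _)) = _
    have := hF 0 l
    rw [pow_zero] at this
    rw [pow_zero, this, map_zero, map_zero]
  rw [stab_yf, add_pow, map_sum, Finset.sum_range_succ', Nat.sub_zero]
  have hz : ((∑ m ∈ P.support, B m * theta y ^ m * D :
      weylS (Option σ ⊕ (ι ⊕ ι))) : Module.End ℂ (MvPolynomial (Option σ ⊕ (ι ⊕ ι)) ℂ))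
      ((X (Sum.inl none) * rename (jv ι) f) ^ 0 * QQ σ ι ^ (s + 1) *
        ((Nat.choose (s + 1) 0 : ℕ) : MvPolynomial (Option σ ⊕ (ι ⊕ ι)) ℂ)) = 0 := by
    rw [Nat.choose_zero_right, Nat.cast_one, mul_one]
    exact hzero _
  rw [hz, add_zero, add_pow, map_sum, Finset.smul_sum]
  refine Finset.sum_congr rfl fun k hk => ?_
  have hks : k ≤ s := by have := Finset.mem_range.1 hk; omega
  have h5 : s + 1 - (k + 1) = s - k := by omega
  rw [h5]
  have hc : ∀ (m : ℕ) (g : MvPolynomial (Option σ ⊕ (ι ⊕ ι)) ℂ), g * (m : MvPolynomial _ ℂ) =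
      (m : ℂ) • g := by
    intro m g
    rw [MvPolynomial.smul_eq_C_mul, map_natCast, mul_comm]
  rw [hc, hc, map_smul, map_smul, hkey k (s - k)]
  have h6 : (X (Sum.inl none) * rename (jv ι) f) ^ k * QQ σ ι ^ (s - k) =
      X y ^ k * (rename (jv ι) f ^ k * QQ σ ι ^ (s - k)) := by rw [mul_pow]; ring
  rw [← hy] at h6 ⊢
  rw [h6, aeval_theta y k b _ (hF _ _)]
  simp only [smul_smul]
  congr 1
  have h7 : ((s + 1 : ℕ) : ℂ) * (s.choose k : ℂ) = ((s + 1).choose (k + 1) : ℂ) * ((k + 1 : ℕ) : ℂ) := by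
    exact_mod_cast Nat.add_one_mul_choose_eq s k
  push_cast at h7
  linear_combination (-(b.eval (k : ℂ))) * h7

/-- the second operator -/
theorem exists_K (f : MvPolynomial σ ℂ) :
    ∃ K : weylS (Option σ ⊕ (ι ⊕ ι)), ∀ s : ℕ,
      (K : Module.End ℂ (MvPolynomial (Option σ ⊕ (ι ⊕ ι)) ℂ)) (stab ι (yf f) ^ (s + 1)) =
        ((s : ℂ) + 1) • (((s : ℂ) + (Fintype.card ι : ℂ)) • stab ι (yf f) ^ s -
          ((theta (Sum.inl none) : weylS (Option σ ⊕ (ι ⊕ ι))) :
          Module.End ℂ (MvPolynomial (Option σ ⊕ (ι ⊕ ι)) ℂ)) (stab ι (yf f) ^ s)) := by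
  classical
  set G := stab ι (yf f) with hG
  set U : ι → Option σ ⊕ (ι ⊕ ι) := fun i => Sum.inr (Sum.inl i) with hU
  set V : ι → Option σ ⊕ (ι ⊕ ι) := fun i => Sum.inr (Sum.inr i) with hV
  have hGe : G = X (Sum.inl none) * rename (jv ι) f + QQ σ ι := stab_yf f
  have hv : ∀ i, pderiv (V i) (X (Sum.inl none) * rename (jv ι) f :
      MvPolynomial (Option σ ⊕ (ι ⊕ ι)) ℂ) = 0 := by
    intro i
    rw [Derivation.leibniz, pderiv_X_of_ne (by simp [hV])]
    rw [pderiv_eq_zero_of_notMem_vars (fun h => ?_)]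
    · simp
    · obtain ⟨a, _, ha⟩ := Finset.mem_image.1 (vars_rename (jv ι) f h)
      exact absurd ha (by simp [jv, hV])
  have hu : ∀ i, pderiv (U i) (X (Sum.inl none) * rename (jv ι) f :
      MvPolynomial (Option σ ⊕ (ι ⊕ ι)) ℂ) = 0 := by
    intro i
    rw [Derivation.leibniz, pderiv_X_of_ne (by simp [hU])]
    rw [pderiv_eq_zero_of_notMem_vars (fun h => ?_)]
    · simp
    · obtain ⟨a, _, ha⟩ := Finset.mem_image.1 (vars_rename (jv ι) f h)
      exact absurd ha (by simp [jv, hU])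
  have hQv : ∀ i, pderiv (V i) (QQ σ ι) = X (U i) := by
    intro i
    unfold QQ
    rw [map_sum, Finset.sum_eq_single i]
    · rw [Derivation.leibniz, pderiv_X_self, pderiv_X_of_ne (by simp [hV])]
      simp [hU]
    · intro j _ hj
      rw [Derivation.leibniz, pderiv_X_of_ne (by simpa [hV] using hj), pderiv_X_of_ne (by simp [hV])]
      simp
    · intro h; exact absurd (Finset.mem_univ i) h
  have hQu : ∀ i, pderiv (U i) (QQ σ ι) = X (V i) := by
    intro i
    unfold QQ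
    rw [map_sum, Finset.sum_eq_single i]
    · rw [Derivation.leibniz, pderiv_X_self, pderiv_X_of_ne (by simp [hU])]
      simp [hV]
    · intro j _ hj
      rw [Derivation.leibniz, pderiv_X_of_ne (by simp [hU]), pderiv_X_of_ne (by simpa [hU] using hj)]
      simp
    · intro h; exact absurd (Finset.mem_univ i) h
  have hGv : ∀ i, pderiv (V i) G = X (U i) := by
    intro i; rw [hGe, map_add, hv, hQv, zero_add]
  have hGu : ∀ i, pderiv (U i) G = X (V i) := by
    intro i; rw [hGe, map_add, hu, hQu, zero_add]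
  refine ⟨∑ i, (⟨_, pderiv_mem (U i)⟩ : weylS (Option σ ⊕ (ι ⊕ ι))) * ⟨_, pderiv_mem (V i)⟩,
    fun s => ?_⟩
  rw [AddSubmonoidClass.coe_finsetSum, LinearMap.sum_apply]
  have h1 : ∀ i, (((⟨_, pderiv_mem (U i)⟩ : weylS (Option σ ⊕ (ι ⊕ ι))) *
      ⟨_, pderiv_mem (V i)⟩ : weylS (Option σ ⊕ (ι ⊕ ι))) :
      Module.End ℂ (MvPolynomial (Option σ ⊕ (ι ⊕ ι)) ℂ)) (G ^ (s + 1)) =
      (s + 1 : ℕ) • (G ^ s + X (U i) * (s • (G ^ (s - 1) * X (V i)))) := by
    intro i
    show pderiv (U i) (pderiv (V i) (G ^ (s + 1))) = _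
    rw [Derivation.leibniz_pow, hGv, map_nsmul, Nat.add_sub_cancel, smul_eq_mul,
      Derivation.leibniz, pderiv_X_self, Derivation.leibniz_pow, hGu]
    simp only [smul_eq_mul, mul_one]
  have h2 : ((theta (Sum.inl none) : weylS (Option σ ⊕ (ι ⊕ ι))) :
      Module.End ℂ (MvPolynomial (Option σ ⊕ (ι ⊕ ι)) ℂ)) (G ^ s) =
      s • (G ^ (s - 1) * (G - QQ σ ι)) := by
    rw [theta_apply, Derivation.leibniz_pow]
    have h3 : pderiv (Sum.inl none) G = rename (jv ι) f := by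
      rw [hGe, map_add, pderiv_QQ, add_zero, Derivation.leibniz, pderiv_X_self,
        pderiv_rename_none]
      simp
    rw [h3, show G - QQ σ ι = X (Sum.inl none) * rename (jv ι) f by rw [hGe]; ring]
    simp only [smul_eq_mul, nsmul_eq_mul]
    ring
  simp only [h1]
  rw [h2, ← Finset.smul_sum, Finset.sum_add_distrib, Finset.sum_const, Finset.card_univ]
  have h4 : ∑ i, (X (U i) * (s • (G ^ (s - 1) * X (V i))) : MvPolynomial (Option σ ⊕ (ι ⊕ ι)) ℂ) =
      s • (G ^ (s - 1) * QQ σ ι) := by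
    unfold QQ
    rw [Finset.mul_sum, Finset.smul_sum]
    refine Finset.sum_congr rfl fun i _ => ?_
    simp only [nsmul_eq_mul, hU, hV]
    ring
  rw [h4]
  have h5 : (s : MvPolynomial (Option σ ⊕ (ι ⊕ ι)) ℂ) * (G ^ (s - 1) * G) = s * G ^ s := by
    cases s with
    | zero => simp
    | succ s => rw [Nat.add_sub_cancel, pow_succ]
  simp only [nsmul_eq_mul, MvPolynomial.smul_eq_C_mul]
  push_cast
  simp only [map_add, map_natCast, map_one]
  linear_combination (1 + (s : MvPolynomial (Option σ ⊕ (ι ⊕ ι)) ℂ)) * h5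

/-- the Weyl algebra -/
noncomputable abbrev WW (σ ι : Type) : Subalgebra ℂ (Module.End ℂ (MvPolynomial (Option σ ⊕ (ι ⊕ ι)) ℂ)) :=
  weylS (Option σ ⊕ (ι ⊕ ι))

/-- **The functional equation of `y f + ∑ u_i v_i`**: if `b(s) f ^ s = P(s) f ^ (s + 1)`, then
`g = y f + ∑_{i ∈ ι} u_i v_i` has a functional equation with `(s + 1) b(s + N)`, `N` the number of
elements of `ι`. -/
theorem isB_stab (f : MvPolynomial σ ℂ) (b : Polynomial ℂ) (h : IsBFunction f b) :
    IsBFunction (stab ι (yf f))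
      ((Polynomial.X + 1) * b.comp (Polynomial.X + Polynomial.C (Fintype.card ι : ℂ))) := by
  classical
  obtain ⟨T, hT⟩ := exists_T (ι := ι) f b h
  obtain ⟨K, hK⟩ := exists_K (ι := ι) f
  set N : ℂ := (Fintype.card ι : ℂ) with hN
  set th : WW σ ι := theta (Sum.inl none) with hth
  -- the commutative ring `ℂ[θ][s]`
  set a : Polynomial (Polynomial ℂ) := Polynomial.X + Polynomial.C (Polynomial.C N) with ha
  set t : Polynomial (Polynomial ℂ) := Polynomial.C Polynomial.X with ht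
  obtain ⟨c, hc⟩ := Polynomial.sub_dvd_eval_sub a t
    (b.map (algebraMap ℂ (Polynomial (Polynomial ℂ))))
  set ph : Polynomial (Polynomial ℂ) →+* Polynomial (WW σ ι) :=
    Polynomial.mapRingHom (Polynomial.aeval th : Polynomial ℂ →ₐ[ℂ] WW σ ι).toRingHom with hph
  rw [isB_iff]
  refine ⟨Polynomial.C T + ph c * Polynomial.C K, fun s => ?_⟩
  set ps : Polynomial (Polynomial ℂ) →+* Module.End ℂ (MvPolynomial (Option σ ⊕ (ι ⊕ ι)) ℂ) :=
    (ev (Option σ ⊕ (ι ⊕ ι)) (s : ℂ)).comp ph with hps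
  have hpsC : ∀ q : Polynomial ℂ, ps (Polynomial.C q) = ((Polynomial.aeval th q : WW σ ι) :
      Module.End ℂ (MvPolynomial (Option σ ⊕ (ι ⊕ ι)) ℂ)) := by
    intro q
    rw [hps, RingHom.comp_apply, hph, Polynomial.coe_mapRingHom, Polynomial.map_C]
    exact ev_C _ _
  have hpsX : ps Polynomial.X = algebraMap ℂ _ (s : ℂ) := by
    rw [hps, RingHom.comp_apply, hph, Polynomial.coe_mapRingHom, Polynomial.map_X]
    exact ev_X _
  have hpsa : ps a = algebraMap ℂ _ ((s : ℂ) + N) := by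
    rw [ha, map_add, hpsX, hpsC, Polynomial.aeval_C, map_add]
    rfl
  have hpst : ps t = (th : Module.End ℂ (MvPolynomial (Option σ ⊕ (ι ⊕ ι)) ℂ)) := by
    rw [ht, hpsC, Polynomial.aeval_X]
  have hpsalg : ps.comp (algebraMap ℂ (Polynomial (Polynomial ℂ))) =
      algebraMap ℂ (Module.End ℂ (MvPolynomial (Option σ ⊕ (ι ⊕ ι)) ℂ)) := by
    ext1 z
    rw [RingHom.comp_apply]
    show ps (Polynomial.C (Polynomial.C z)) = _
    rw [hpsC, Polynomial.aeval_C]
    rfl
  have hev : ∀ x : Polynomial (Polynomial ℂ), ps ((b.map (algebraMap ℂ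
      (Polynomial (Polynomial ℂ)))).eval x) = b.eval₂ (algebraMap ℂ
      (Module.End ℂ (MvPolynomial (Option σ ⊕ (ι ⊕ ι)) ℂ))) (ps x) := by
    intro x
    rw [Polynomial.eval_map, Polynomial.hom_eval₂, hpsalg]
  have h1 : ps ((b.map (algebraMap ℂ (Polynomial (Polynomial ℂ)))).eval a) =
      algebraMap ℂ _ (b.eval ((s : ℂ) + N)) := by
    rw [hev, hpsa, Polynomial.eval₂_at_apply]
  have h2 : ps ((b.map (algebraMap ℂ (Polynomial (Polynomial ℂ)))).eval t) =
      ((Polynomial.aeval th b : WW σ ι) :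
      Module.End ℂ (MvPolynomial (Option σ ⊕ (ι ⊕ ι)) ℂ)) := by
    rw [hev, hpst]
    have h3 := Polynomial.hom_eval₂ b (algebraMap ℂ (WW σ ι)) (WW σ ι).val.toRingHom th
    exact h3.symm
  have h4 : ps c * (algebraMap ℂ _ ((s : ℂ) + N) - (th : Module.End ℂ _)) =
      algebraMap ℂ _ (b.eval ((s : ℂ) + N)) - ((Polynomial.aeval th b : WW σ ι) :
      Module.End ℂ (MvPolynomial (Option σ ⊕ (ι ⊕ ι)) ℂ)) := by
    rw [← h1, ← h2, ← hpsa, ← hpst, ← map_sub, ← map_sub, ← map_mul, hc, mul_comm c]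
  have h5 : ev (Option σ ⊕ (ι ⊕ ι)) (s : ℂ) (Polynomial.C T + ph c * Polynomial.C K)
      (stab ι (yf f) ^ (s + 1)) = ((s : ℂ) + 1) • (b.eval ((s : ℂ) + N)) •
      stab ι (yf f) ^ s := by
    rw [map_add, map_mul, ev_C, ev_C, LinearMap.add_apply, Module.End.mul_apply, hT, hK,
      map_smul, ← smul_add]
    congr 1
    have h6 : ((s : ℂ) + N) • stab ι (yf f) ^ s -
        (th : Module.End ℂ (MvPolynomial (Option σ ⊕ (ι ⊕ ι)) ℂ)) (stab ι (yf f) ^ s) =
        (algebraMap ℂ (Module.End ℂ (MvPolynomial (Option σ ⊕ (ι ⊕ ι)) ℂ)) ((s : ℂ) + N) -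
        (th : Module.End ℂ (MvPolynomial (Option σ ⊕ (ι ⊕ ι)) ℂ))) (stab ι (yf f) ^ s) := by
      rw [LinearMap.sub_apply, Module.algebraMap_end_apply]
    rw [h6]
    have h7 : (ev (Option σ ⊕ (ι ⊕ ι)) (s : ℂ)) (ph c) = ps c := rfl
    rw [h7, ← Module.End.mul_apply, h4, LinearMap.sub_apply, Module.algebraMap_end_apply]
    abel
  rw [h5, Polynomial.eval_mul, Polynomial.eval_comp]
  simp only [Polynomial.eval_add, Polynomial.eval_X, Polynomial.eval_one, Polynomial.eval_C,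
    MvPolynomial.smul_eq_C_mul, map_mul]
  ring

end

end Pool.Agent.TH26.Cub
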