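import Pool.Agent.TH26.Cub.Padic
import Pool.Agent.TH26.Cub.Stab

set_option autoImplicit false
set_option linter.unusedSectionVars false

/-! The Igusa zeta function of `y f + ∑ u_i v_i`. -/

namespace Pool.Agent.TH26.Cub

open MeasureTheory Pool.Agent.W427.SMC MvPolynomial
open scoped ENNReal

variable {p : ℕ} [hp : Fact p.Prime]

attribute [local instance] msZ bsZ

/-- the integral over `N` pairs -/
noncomputable def HN (p : ℕ) [Fact p.Prime] (N : ℕ) (t : ℤ_[p]) (s : ℂ) : ℂ :=
  ∫ w : Fin N → ℤ_[p] × ℤ_[p], nm p (t + ∑ i, (w i).1 * (w i).2) s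
    ∂(Measure.pi fun _ => (mu p).prod (mu p))

lemma HN_zero (t : ℤ_[p]) (s : ℂ) : HN p 0 t s = nm p t s := by
  unfold HN
  have : ∀ w : Fin 0 → ℤ_[p] × ℤ_[p], nm p (t + ∑ i, (w i).1 * (w i).2) s = nm p t s := by
    intro w; simp
  simp only [this]
  simp

lemma HN_succ (N : ℕ) (t : ℤ_[p]) {s : ℂ} (hs : 0 < s.re) :
    HN p (N + 1) t s = ∫ a : ℤ_[p] × ℤ_[p], HN p N (t + a.1 * a.2) s ∂((mu p).prod (mu p)) := by
  have h := measurePreserving_piFinSuccAbove
    (fun _ : Fin (N + 1) => (mu p).prod (mu p)) 0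
  set g : (ℤ_[p] × ℤ_[p]) × (Fin N → ℤ_[p] × ℤ_[p]) → ℂ := fun w =>
    nm p (t + w.1.1 * w.1.2 + ∑ i, (w.2 i).1 * (w.2 i).2) s with hg
  have h1 := h.integral_comp' (g := g)
  have h2 : ∀ w : Fin (N + 1) → ℤ_[p] × ℤ_[p],
      g (MeasurableEquiv.piFinSuccAbove (fun _ => ℤ_[p] × ℤ_[p]) 0 w) =
      nm p (t + ∑ i, (w i).1 * (w i).2) s := by
    intro w
    rw [Fin.sum_univ_succ, ← add_assoc]
    rfl
  have h3 : HN p (N + 1) t s = ∫ w, g (MeasurableEquiv.piFinSuccAbove
      (fun _ => ℤ_[p] × ℤ_[p]) 0 w) ∂(Measure.pi fun _ : Fin (N + 1) => (mu p).prod (mu p)) := by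
    unfold HN
    exact integral_congr_ae (Filter.Eventually.of_forall fun w => (h2 w).symm)
  rw [h3, h1, integral_prod]
  · rfl
  · have hc : Continuous (fun w : (ℤ_[p] × ℤ_[p]) × (Fin N → ℤ_[p] × ℤ_[p]) =>
        t + w.1.1 * w.1.2 + ∑ i, (w.2 i).1 * (w.2 i).2) := by fun_prop
    exact integrable_nm _ _ hc.measurable hs

/-- the constants -/
noncomputable def aN (p : ℕ) [Fact p.Prime] (s : ℂ) : ℕ → ℂ × ℂ
  | 0 => (0, 1)
  | N + 1 => ((aN p s N).1 + (aN p s N).2 * cs p (s + N) ^ 2, (aN p s N).2 * b1 p (s + N))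

lemma re_add_nat {s : ℂ} (hs : 0 < s.re) (N : ℕ) : 0 < (s + N).re := by
  rw [Complex.add_re, Complex.natCast_re]
  positivity

theorem HN_eq (N : ℕ) (t : ℤ_[p]) {s : ℂ} (hs : 0 < s.re) :
    HN p N t s = (aN p s N).1 + (aN p s N).2 * nm p t (s + N) := by
  induction N generalizing t with
  | zero => rw [HN_zero]; simp [aN]
  | succ N ih =>
    rw [HN_succ N t hs]
    have h1 : ∀ a : ℤ_[p] × ℤ_[p], HN p N (t + a.1 * a.2) s =
        (aN p s N).1 + (aN p s N).2 * nm p (t + a.1 * a.2) (s + N) := fun a => ih _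
    simp only [h1]
    have hc : Continuous (fun a : ℤ_[p] × ℤ_[p] => t + a.1 * a.2) := by fun_prop
    have hi := integrable_nm ((mu p).prod (mu p)) _ hc.measurable (re_add_nat hs N)
    rw [integral_add (integrable_const _) (hi.const_mul _), integral_const, integral_const_mul,
      integral_prod _ hi]
    have h2 : ∫ (x : ℤ_[p]), ∫ (y : ℤ_[p]), nm p (t + x * y) (s + N) ∂(mu p) ∂(mu p) =
      cs p (s + N) ^ 2 + b1 p (s + N) * nm p t (s + N + 1) := I1_eq t (re_add_nat hs N)
    have h3 : (s + ((N + 1 : ℕ) : ℂ)) = s + N + 1 := by push_cast; ring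
    rw [h3]
    show _ + (aN p s N).2 * (∫ (x : ℤ_[p]), ∫ (y : ℤ_[p]), nm p (t + x * y) (s + N)
      ∂(mu p) ∂(mu p)) = _
    rw [h2]
    simp [aN]
    ring

section poly

variable {V W : Type} [Fintype V] [Fintype W]

/-- the Igusa zeta function -/
noncomputable def Zt (p : ℕ) [Fact p.Prime] {V : Type} [Fintype V] (F : MvPolynomial V ℤ)
    (s : ℂ) : ℂ := ∫ z, nm p (aeval z F) s ∂(Measure.pi fun _ : V => mu p)

lemma cont_aeval (F : MvPolynomial V ℤ) : Continuous (fun x : V → ℤ_[p] => aeval x F) := by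
  have : (fun x : V → ℤ_[p] => aeval x F) =
      fun x => eval x (map (Int.castRingHom ℤ_[p]) F) := by
    funext x
    rw [aeval_def, eval_map]
    rfl
  rw [this]
  exact MvPolynomial.continuous_eval _

theorem igusaZeta_eq_Zt (F : MvPolynomial V ℤ) (s : ℂ) : igusaZeta p F s = Zt p F s := by
  unfold igusaZeta Zt
  have hms : (borel (V → ℤ_[p])) = MeasurableSpace.pi := (Pi.borelSpace).measurable_eq.symm
  have key : ∀ (ms : MeasurableSpace (V → ℤ_[p])) (_ : ms = MeasurableSpace.pi)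
      (hb : @BorelSpace _ _ ms),
      (@integral _ _ _ _ ms (@Measure.addHaarMeasure _ _ _ _ ms hb
        (⊤ : TopologicalSpace.PositiveCompacts (V → ℤ_[p])))
        (fun x => ((‖aeval x F‖ : ℝ) : ℂ) ^ (s : ℂ))) =
      ∫ z, nm p (aeval z F) s ∂(Measure.pi fun _ : V => mu p) := by
    intro ms h hb
    subst h
    have h1 : (Measure.pi fun _ : V => mu p) =
        Measure.addHaarMeasure (⊤ : TopologicalSpace.PositiveCompacts (V → ℤ_[p])) := by
      have h2 := Measure.addHaarMeasure_unique (Measure.pi fun _ : V => mu p)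
        (⊤ : TopologicalSpace.PositiveCompacts (V → ℤ_[p]))
      rw [h2]
      have : (Measure.pi fun _ : V => mu p)
          ((⊤ : TopologicalSpace.PositiveCompacts (V → ℤ_[p])) : Set (V → ℤ_[p])) = 1 :=
        measure_univ
      rw [this, one_smul]
    rw [← h1]
    rfl
  exact key (borel _) hms (@BorelSpace.mk _ _ (borel _) rfl)

/-- renaming of the variables -/
theorem Zt_rename (e : V ≃ W) (F : MvPolynomial V ℤ) (s : ℂ) : Zt p (rename e F) s = Zt p F s := by
  have h := measurePreserving_piCongrLeft (fun _ : V => mu p) e.symm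
  have h1 := h.integral_comp' (g := fun z : V → ℤ_[p] => nm p (aeval z F) s)
  unfold Zt
  rw [← h1]
  refine integral_congr_ae (Filter.Eventually.of_forall fun z => ?_)
  show nm p (aeval z (rename e F)) s = nm p (aeval _ F) s
  rw [aeval_rename]
  congr 3
  funext i
  have h2 : (MeasurableEquiv.piCongrLeft (fun _ : V => ℤ_[p]) e.symm) z i =
      (MeasurableEquiv.piCongrLeft (fun _ : V => ℤ_[p]) e.symm) z (e.symm (e i)) := by
    rw [e.symm_apply_apply]
  rw [h2, MeasurableEquiv.piCongrLeft_apply_apply]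
  rfl

/-- Fubini -/
theorem Zt_sum (F : MvPolynomial (V ⊕ W) ℤ) {s : ℂ} (hs : 0 < s.re) :
    Zt p F s = ∫ x : V → ℤ_[p], ∫ y : W → ℤ_[p], nm p (aeval (Sum.elim x y) F) s
      ∂(Measure.pi fun _ : W => mu p) ∂(Measure.pi fun _ : V => mu p) := by
  have h := measurePreserving_sumPiEquivProdPi (fun _ : V ⊕ W => mu p)
  have h1 := h.integral_comp' (g := fun w : (V → ℤ_[p]) × (W → ℤ_[p]) =>
    nm p (aeval (Sum.elim w.1 w.2) F) s)
  unfold Zt
  have h2 : ∀ z : V ⊕ W → ℤ_[p], nm p (aeval z F) s = nm p (aeval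
      (Sum.elim (MeasurableEquiv.sumPiEquivProdPi (fun _ : V ⊕ W => ℤ_[p]) z).1
        (MeasurableEquiv.sumPiEquivProdPi (fun _ : V ⊕ W => ℤ_[p]) z).2) F) s := by
    intro z
    congr 3
    funext i
    rcases i with i | i <;> rfl
  rw [integral_congr_ae (Filter.Eventually.of_forall h2)]
  refine h1.trans ?_
  rw [integral_prod]
  have hc : Continuous (fun w : (V → ℤ_[p]) × (W → ℤ_[p]) => aeval (Sum.elim w.1 w.2) F) := by
    refine (cont_aeval F).comp ?_
    refine continuous_pi fun i => ?_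
    rcases i with i | i
    · exact (continuous_apply i).comp continuous_fst
    · exact (continuous_apply i).comp continuous_snd
  exact integrable_nm _ _ hc.measurable hs

/-- the shear `(x, y) ↦ (x, y + a(x))` -/
noncomputable def shear {R : Type} [CommRing R] {V W : Type} (a : W → MvPolynomial V R) :
    MvPolynomial (V ⊕ W) R →ₐ[R] MvPolynomial (V ⊕ W) R :=
  aeval (Sum.elim (fun i => X (Sum.inl i)) (fun j => X (Sum.inr j) + rename Sum.inl (a j)))

/-- invariance under shears -/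
theorem Zt_shear (a : W → MvPolynomial V ℤ) (F : MvPolynomial (V ⊕ W) ℤ) {s : ℂ}
    (hs : 0 < s.re) : Zt p (shear a F) s = Zt p F s := by
  rw [Zt_sum _ hs, Zt_sum _ hs]
  refine integral_congr_ae (Filter.Eventually.of_forall fun x => ?_)
  have h1 : ∀ y : W → ℤ_[p], aeval (Sum.elim x y) (shear a F) =
      aeval (Sum.elim x ((fun j => aeval x (a j)) + y)) F := by
    intro y
    unfold shear
    rw [← AlgHom.comp_apply]
    congr 1
    refine MvPolynomial.algHom_ext fun i => ?_
    rw [AlgHom.comp_apply, aeval_X, aeval_X]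
    rcases i with i | i
    · simp
    · simp only [Sum.elim_inr, map_add, aeval_X, Pi.add_apply, aeval_rename]
      rw [add_comm]
      congr 2
  show ∫ y : W → ℤ_[p], nm p (aeval (Sum.elim x y) (shear a F)) s
      ∂(Measure.pi fun _ : W => mu p) = _
  simp only [h1]
  exact integral_add_left_eq_self (μ := Measure.pi fun _ : W => mu p)
    (fun y => nm p (aeval (Sum.elim x y) F) s) (fun j => aeval x (a j))

end poly

end Pool.Agent.TH26.Cub
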