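import Pool.Agent.TH26.Cub.Padic2

set_option autoImplicit false
set_option linter.unusedSectionVars false

/-! The Igusa zeta function of `y f + ∑ u_i v_i`: the formula, and the poles. -/

namespace Pool.Agent.TH26.Cub

open MeasureTheory Pool.Agent.W427.SMC MvPolynomial
open scoped ENNReal

section
variable {R : Type} [CommRing R] {τ τ' ι κ : Type} [Fintype ι] [Fintype κ]

lemma stab_rename (e : ι ≃ κ) (h : MvPolynomial τ R) :
    rename (Equiv.sumCongr (Equiv.refl τ) (Equiv.sumCongr e e)) (stab ι h) = stab κ h := by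
  unfold stab
  rw [map_add, rename_rename, map_sum]
  congr 1
  rw [← e.sum_comp]
  refine Finset.sum_congr rfl fun i _ => ?_
  simp

end

variable {p : ℕ} [hp : Fact p.Prime] {V W ι : Type} [Fintype V] [Fintype W] [Fintype ι]

attribute [local instance] msZ bsZ

lemma aeval_stab (x : V → ℤ_[p]) (y : ι ⊕ ι → ℤ_[p]) (h : MvPolynomial V ℤ) :
    aeval (Sum.elim x y) (stab ι h) = aeval x h + ∑ i, y (Sum.inl i) * y (Sum.inr i) := by
  unfold stab
  rw [map_add, aeval_rename, map_sum]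
  congr 1
  refine Finset.sum_congr rfl fun i _ => ?_
  simp

lemma inner_HN (N : ℕ) (t : ℤ_[p]) (s : ℂ) :
    ∫ y : Fin N ⊕ Fin N → ℤ_[p], nm p (t + ∑ i, y (Sum.inl i) * y (Sum.inr i)) s
      ∂(Measure.pi fun _ => mu p) = HN p N t s := by
  have h := (measurePreserving_sumPiEquivProdPi (fun _ : Fin N ⊕ Fin N => mu p)).integral_comp'
    (g := fun w : (Fin N → ℤ_[p]) × (Fin N → ℤ_[p]) => nm p (t + ∑ i, w.1 i * w.2 i) s)
  have h' := (measurePreserving_arrowProdEquivProdArrow ℤ_[p] ℤ_[p] (Fin N)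
    (fun _ => mu p) (fun _ => mu p)).integral_comp'
    (g := fun w : (Fin N → ℤ_[p]) × (Fin N → ℤ_[p]) => nm p (t + ∑ i, w.1 i * w.2 i) s)
  exact h.trans h'.symm

theorem Zt_stab_fin (N : ℕ) (h : MvPolynomial V ℤ) {s : ℂ} (hs : 0 < s.re) :
    Zt p (stab (Fin N) h) s = (aN p s N).1 + (aN p s N).2 * Zt p h (s + N) := by
  rw [Zt_sum _ hs]
  have h1 : ∀ x : V → ℤ_[p], ∫ y : Fin N ⊕ Fin N → ℤ_[p],
      nm p (aeval (Sum.elim x y) (stab (Fin N) h)) s ∂(Measure.pi fun _ => mu p) =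
      (aN p s N).1 + (aN p s N).2 * nm p (aeval x h) (s + N) := by
    intro x
    simp only [aeval_stab]
    rw [inner_HN, HN_eq N _ hs]
  simp only [h1]
  have hi := integrable_nm (Measure.pi fun _ : V => mu p) _ (cont_aeval h).measurable
    (re_add_nat hs N)
  rw [integral_add (integrable_const _) (hi.const_mul _), integral_const, integral_const_mul]
  simp [Zt]

theorem Zt_stab (h : MvPolynomial V ℤ) {s : ℂ} (hs : 0 < s.re) :
    Zt p (stab ι h) s = (aN p s (Fintype.card ι)).1 +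
      (aN p s (Fintype.card ι)).2 * Zt p h (s + Fintype.card ι) := by
  rw [← Zt_rename (Equiv.sumCongr (Equiv.refl V) (Equiv.sumCongr (Fintype.equivFin ι)
    (Fintype.equivFin ι))), stab_rename, Zt_stab_fin _ h hs]

lemma nm_mul (a b : ℤ_[p]) (s : ℂ) : nm p (a * b) s = nm p a s * nm p b s := by
  unfold nm
  rw [norm_mul, Complex.ofReal_mul, Complex.mul_cpow_ofReal_nonneg (norm_nonneg _) (norm_nonneg _)]

theorem Zt_yf (f : MvPolynomial V ℤ) {s : ℂ} (hs : 0 < s.re) :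
    Zt p (yf f) s = cs p s * Zt p f s := by
  have h0 : rename (Equiv.optionEquivSumPUnit.{0, 0} V) (yf f) =
      X (Sum.inr PUnit.unit) * rename Sum.inl f := by
    unfold yf
    rw [map_mul, rename_X, rename_rename]
    rfl
  rw [← Zt_rename (Equiv.optionEquivSumPUnit.{0, 0} V), h0, Zt_sum _ hs]
  have h1 : ∀ (x : V → ℤ_[p]) (y : PUnit.{1} → ℤ_[p]),
      aeval (Sum.elim x y) (X (Sum.inr PUnit.unit) * rename Sum.inl f : MvPolynomial (V ⊕ PUnit.{1}) ℤ)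
        = y PUnit.unit * aeval x f := by
    intro x y
    rw [map_mul, aeval_X, aeval_rename]
    rfl
  simp only [h1, nm_mul]
  have h2 : ∫ y : PUnit.{1} → ℤ_[p], nm p (y PUnit.unit) s ∂(Measure.pi fun _ => mu p) = cs p s :=
    (measurePreserving_funUnique (mu p) PUnit.{1}).integral_comp' (g := fun v => nm p v s)
  have h3 : ∀ x : V → ℤ_[p], ∫ y : PUnit.{1} → ℤ_[p], nm p (y PUnit.unit) s * nm p (aeval x f) s
      ∂(Measure.pi fun _ => mu p) = cs p s * nm p (aeval x f) s := by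
    intro x
    rw [integral_mul_const, h2]
  refine (integral_congr_ae (Filter.Eventually.of_forall h3)).trans ?_
  rw [integral_const_mul]
  rfl

lemma p_cpow (s : ℂ) (N : ℕ) : (p : ℂ) ^ (-(s + N)) = ((p : ℂ)⁻¹) ^ N * (p : ℂ) ^ (-s) := by
  have hp0 : (p : ℂ) ≠ 0 := by exact_mod_cast hp.out.ne_zero
  rw [neg_add, Complex.cpow_add _ _ hp0, Complex.cpow_neg _ (N : ℂ), Complex.cpow_natCast, inv_pow]
  ring

lemma DN_ne {s : ℂ} (hs : 0 < s.re) (N : ℕ) :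
    1 - ((p : ℂ)⁻¹) ^ N * (p : ℂ) ^ (-s) ≠ 0 := by
  intro h
  have h1 : (1 : ℂ) = ((p : ℂ)⁻¹) ^ N * (p : ℂ) ^ (-s) := sub_eq_zero.1 h
  have h2 := congrArg norm h1
  rw [norm_one, norm_mul, norm_pow, norm_inv, Complex.norm_natCast] at h2
  have h3 := norm_T (p := p) hs
  have hp1 : (1 : ℝ) < p := by exact_mod_cast hp.out.one_lt
  have h4 : ((p : ℝ)⁻¹) ^ N ≤ 1 := pow_le_one₀ (by positivity) (inv_le_one_of_one_le₀ hp1.le)
  have h5 : 0 ≤ ((p : ℝ)⁻¹) ^ N := by positivity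
  nlinarith [norm_nonneg ((p : ℂ) ^ (-s))]

lemma cs_N {s : ℂ} (hs : 0 < s.re) (N : ℕ) :
    (1 - ((p : ℂ)⁻¹) ^ (N + 1) * (p : ℂ) ^ (-s)) * cs p (s + N) = 1 - (p : ℂ)⁻¹ := by
  have h := cs_eq (p := p) (re_add_nat hs N)
  rw [p_cpow] at h
  rw [← h]; ring

theorem aN_two {s : ℂ} (hs : 0 < s.re) (N : ℕ) :
    (1 - ((p : ℂ)⁻¹) ^ N * (p : ℂ) ^ (-s)) * ((aN p s N).2 * cs p (s + N)) =
      ((p : ℂ)⁻¹) ^ N * (1 - (p : ℂ) ^ (-s)) * cs p s := by
  induction N with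
  | zero => simp [aN]
  | succ N ih =>
    set q : ℂ := (p : ℂ)⁻¹ with hq
    set T : ℂ := (p : ℂ) ^ (-s) with hT
    have h1 := cs_N (p := p) hs N
    have h2 := cs_N (p := p) hs (N + 1)
    rw [← hq, ← hT] at h1 h2
    have hD1 : (1 - q ^ (N + 1) * T) ≠ 0 := DN_ne hs (N + 1)
    have hD2 : (1 - q ^ (N + 1 + 1) * T) ≠ 0 := DN_ne hs (N + 1 + 1)
    have hb : b1 p (s + N) = q - q * (q ^ N * T) * cs p (s + N) ^ 2 := by
      rw [b1, p_cpow]
    show (1 - q ^ (N + 1) * T) * (((aN p s N).2 * b1 p (s + N)) * cs p (s + ((N + 1 : ℕ) : ℂ))) =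
      q ^ (N + 1) * (1 - T) * cs p s
    have key : (1 - q ^ (N + 1) * T) * (b1 p (s + N) * cs p (s + ((N + 1 : ℕ) : ℂ))) =
        q * (1 - q ^ N * T) * cs p (s + N) := by
      rw [hb]
      refine mul_left_cancel₀ (mul_ne_zero hD2 hD1) ?_
      rw [pow_succ q (N + 1), pow_succ q N] at h2 ⊢
      rw [pow_succ q N] at h1
      generalize q ^ N = Q at h1 h2 ⊢
      linear_combination (1 - Q * q * T) ^ 2 * (q - q * Q * T * cs p (s + N) ^ 2) * h2 -
        q * Q * T * (1 - q) * ((1 - Q * q * T) * cs p (s + N) + (1 - q)) * h1 -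
        (1 - Q * q * q * T) * q * (1 - Q * T) * h1
    calc (1 - q ^ (N + 1) * T) * (((aN p s N).2 * b1 p (s + N)) * cs p (s + ((N + 1 : ℕ) : ℂ)))
        = (aN p s N).2 * ((1 - q ^ (N + 1) * T) *
            (b1 p (s + N) * cs p (s + ((N + 1 : ℕ) : ℂ)))) := by ring
      _ = q * ((1 - q ^ N * T) * ((aN p s N).2 * cs p (s + N))) := by rw [key]; ring
      _ = q ^ (N + 1) * (1 - T) * cs p s := by rw [ih]; ring

theorem aN_one {s : ℂ} (hs : 0 < s.re) (N : ℕ) :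
    (1 - ((p : ℂ)⁻¹) ^ N * (p : ℂ) ^ (-s)) * (aN p s N).1 =
      (1 - ((p : ℂ)⁻¹) ^ N) * cs p s := by
  induction N with
  | zero => simp [aN]
  | succ N ih =>
    have h3 := aN_two (p := p) hs N
    set q : ℂ := (p : ℂ)⁻¹ with hq
    set T : ℂ := (p : ℂ) ^ (-s) with hT
    have h1 := cs_N (p := p) hs N
    rw [← hq, ← hT] at h1
    have hD0 : (1 - q ^ N * T) ≠ 0 := DN_ne hs N
    refine mul_left_cancel₀ hD0 ?_
    show (1 - q ^ N * T) * ((1 - q ^ (N + 1) * T) *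
      ((aN p s N).1 + (aN p s N).2 * cs p (s + N) ^ 2)) = _
    calc (1 - q ^ N * T) * ((1 - q ^ (N + 1) * T) *
      ((aN p s N).1 + (aN p s N).2 * cs p (s + N) ^ 2))
        = (1 - q ^ (N + 1) * T) * ((1 - q ^ N * T) * (aN p s N).1) +
          ((1 - q ^ N * T) * ((aN p s N).2 * cs p (s + N))) *
            ((1 - q ^ (N + 1) * T) * cs p (s + N)) := by ring
      _ = (1 - q ^ N * T) * ((1 - q ^ (N + 1)) * cs p s) := by
        rw [ih, h3, h1]; ring

/-- **The zeta function of `y f + ∑ u_i v_i`.** -/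
theorem Zt_main (f : MvPolynomial V ℤ) {s : ℂ} (hs : 0 < s.re) :
    (1 - ((p : ℂ)⁻¹) ^ (Fintype.card ι) * (p : ℂ) ^ (-s)) * (1 - (p : ℂ)⁻¹ * (p : ℂ) ^ (-s)) *
      Zt p (stab ι (yf f)) s = (1 - (p : ℂ)⁻¹) * ((1 - ((p : ℂ)⁻¹) ^ (Fintype.card ι)) +
        ((p : ℂ)⁻¹) ^ (Fintype.card ι) * (1 - (p : ℂ) ^ (-s)) *
          Zt p f (s + Fintype.card ι)) := by
  have h1 := aN_one (p := p) hs (Fintype.card ι)
  have h2 := aN_two (p := p) hs (Fintype.card ι)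
  have h3 := cs_eq (p := p) hs
  rw [Zt_stab _ hs, Zt_yf _ (re_add_nat hs _)]
  linear_combination (1 - (p : ℂ)⁻¹ * (p : ℂ) ^ (-s)) * h1 +
    (1 - (p : ℂ)⁻¹ * (p : ℂ) ^ (-s)) * Zt p f (s + Fintype.card ι) * h2 +
    ((1 - ((p : ℂ)⁻¹) ^ (Fintype.card ι)) +
        ((p : ℂ)⁻¹) ^ (Fintype.card ι) * (1 - (p : ℂ) ^ (-s)) *
          Zt p f (s + Fintype.card ι)) * h3

end Pool.Agent.TH26.Cub
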