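import Pool.Agent.TH26.Cub.Padic3

set_option autoImplicit false
set_option linter.unusedSectionVars false

/-! The poles of the Igusa zeta function of `y f + ∑ u_i v_i`. -/

namespace Pool.Agent.TH26.Cub

open MeasureTheory Pool.Agent.W427.SMC MvPolynomial Filter Topology
open Pool.Agent.H628R4.TP (IsBFunction)

variable {p : ℕ} [hp : Fact p.Prime] {V W ι : Type} [Fintype V] [Fintype W] [Fintype ι]

lemma Zt_le (f : MvPolynomial V ℤ) {s : ℂ} (hs : 0 < s.re) : ‖Zt p f s‖ ≤ 1 := by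
  unfold Zt
  refine (norm_integral_le_of_norm_le_const (C := 1)
    (Filter.Eventually.of_forall fun v => nm_le _ hs)).trans ?_
  simp

lemma re_neg_of_pole (f : MvPolynomial V ℤ) (F : ℂ → ℂ)
    (hF : ∀ s : ℂ, 0 < s.re → F s = Zt p f s) (s₀ : ℂ) (h : meromorphicOrderAt F s₀ < 0) :
    s₀.re < 0 := by
  by_contra hre
  push Not at hre
  have h1 := tendsto_cobounded_of_meromorphicOrderAt_neg h
  have h2 : Tendsto (fun n : ℕ => s₀ + (1 / ((n : ℂ) + 1))) atTop (𝓝[≠] s₀) := by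
    refine tendsto_nhdsWithin_iff.2 ⟨?_, Filter.Eventually.of_forall fun n => ?_⟩
    · have : Tendsto (fun n : ℕ => s₀ + (1 / ((n : ℂ) + 1))) atTop (𝓝 (s₀ + 0)) :=
        tendsto_const_nhds.add (tendsto_one_div_add_atTop_nhds_zero_nat (𝕜 := ℂ))
      simpa using this
    · intro h
      have h3 : (1 / ((n : ℂ) + 1)) = 0 := by
        have : s₀ + (1 / ((n : ℂ) + 1)) = s₀ + 0 := by simpa using h
        exact add_left_cancel this
      have h4 : ((n : ℂ) + 1) ≠ 0 := Nat.cast_add_one_ne_zero n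
      simp [h4] at h3
  have h3 := h1.comp h2
  rw [← tendsto_norm_atTop_iff_cobounded] at h3
  obtain ⟨n, hn⟩ := (h3.eventually (Filter.eventually_gt_atTop (1 : ℝ))).exists
  have h5 : 0 < (s₀ + (1 / ((n : ℂ) + 1))).re := by
    have : (1 / ((n : ℂ) + 1)) = ((1 / ((n : ℝ) + 1) : ℝ) : ℂ) := by push_cast; rfl
    rw [this, Complex.add_re, Complex.ofReal_re]
    have : (0 : ℝ) < 1 / ((n : ℝ) + 1) := by positivity
    linarith
  simp only [Function.comp_apply] at hn
  rw [hF _ h5] at hn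
  exact absurd (Zt_le f h5) (not_le.2 hn)

lemma T_big {s : ℂ} (N : ℕ) (hs : s.re < -(N : ℝ)) (k : ℕ) (hk : k ≤ N) :
    1 - ((p : ℂ)⁻¹) ^ k * (p : ℂ) ^ (-s) ≠ 0 := by
  intro h
  have h1 : (1 : ℂ) = ((p : ℂ)⁻¹) ^ k * (p : ℂ) ^ (-s) := sub_eq_zero.1 h
  have h2 := congrArg norm h1
  have hp1 : (1 : ℝ) < p := by exact_mod_cast hp.out.one_lt
  rw [norm_one, norm_mul, norm_pow, norm_inv, Complex.norm_natCast,
    ← Complex.ofReal_natCast, Complex.norm_cpow_eq_rpow_re_of_pos (by linarith),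
    Complex.neg_re, ← Real.rpow_natCast, ← Real.rpow_neg_one, ← Real.rpow_mul (by linarith),
    ← Real.rpow_add (by linarith)] at h2
  have h3 : (0 : ℝ) < -1 * (k : ℝ) + -s.re := by
    have : (k : ℝ) ≤ N := by exact_mod_cast hk
    linarith
  have h4 := Real.one_lt_rpow hp1 h3
  linarith

theorem core (hι : 1 ≤ Fintype.card ι) (f : MvPolynomial V ℤ) (F : ℂ → ℂ)
    (hm : MeromorphicOn F Set.univ) (hF : ∀ s : ℂ, 0 < s.re → F s = Zt p f s) :
    ∃ G : ℂ → ℂ, MeromorphicOn G Set.univ ∧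
      (∀ s : ℂ, 0 < s.re → G s = Zt p (stab ι (yf f)) s) ∧
      ∀ s₀ : ℂ, meromorphicOrderAt F s₀ < 0 → s₀.re < 0 ∧
        meromorphicOrderAt G (s₀ - Fintype.card ι) = meromorphicOrderAt F s₀ := by
  set N := Fintype.card ι with hN
  have hp0 : (p : ℂ) ≠ 0 := by exact_mod_cast hp.out.ne_zero
  have hp1 : (1 : ℝ) < p := by exact_mod_cast hp.out.one_lt
  have hT : Differentiable ℂ (fun s : ℂ => (p : ℂ) ^ (-s)) := fun s =>
    (differentiableAt_id.neg).const_cpow (Or.inl hp0)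
  set D : ℂ → ℂ := fun s => (1 - ((p : ℂ)⁻¹) ^ N * (p : ℂ) ^ (-s)) *
    (1 - (p : ℂ)⁻¹ * (p : ℂ) ^ (-s)) with hD
  set L : ℂ → ℂ := fun s => (1 - (p : ℂ)⁻¹) * (((p : ℂ)⁻¹) ^ N * (1 - (p : ℂ) ^ (-s))) with hL
  set K : ℂ → ℂ := fun _ => (1 - (p : ℂ)⁻¹) * (1 - ((p : ℂ)⁻¹) ^ N) with hK
  have hDa : ∀ s, AnalyticAt ℂ D s := by
    have : Differentiable ℂ D := by
      intro s
      exact (((hT s).const_mul _).const_sub _).mul (((hT s).const_mul _).const_sub _)
    exact fun s => this.analyticAt s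
  have hLa : ∀ s, AnalyticAt ℂ L s := by
    have : Differentiable ℂ L := by
      intro s
      exact (((hT s).const_sub _).const_mul _).const_mul _
    exact fun s => this.analyticAt s
  have hKa : ∀ s, AnalyticAt ℂ K s := fun s => analyticAt_const
  have hFc : ∀ s, MeromorphicAt (F ∘ (· + (N : ℂ))) s := fun s =>
    meromorphicAt_comp_add_const_iff_meromorphicAt.2 (hm _ trivial)
  refine ⟨D⁻¹ * (L * (F ∘ (· + (N : ℂ))) + K), ?_, ?_, ?_⟩
  · intro s _
    exact ((hDa s).meromorphicAt.inv).mul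
      (((hLa s).meromorphicAt.mul (hFc s)).add (hKa s).meromorphicAt)
  · intro s hs
    have h1 := Zt_main (p := p) (ι := ι) f hs
    have hD0 : D s ≠ 0 := mul_ne_zero (DN_ne hs N) (D_ne hs)
    have h2 : D s * Zt p (stab ι (yf f)) s = L s * F (s + N) + K s := by
      rw [hF _ (re_add_nat hs N)]
      simp only [hD, hL, hK]
      rw [h1]; ring
    simp only [Pi.mul_apply, Pi.inv_apply, Pi.add_apply, Function.comp_apply]
    rw [← h2, inv_mul_cancel_left₀ hD0]
  · intro s₀ h0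
    have hre := re_neg_of_pole f F hF s₀ h0
    refine ⟨hre, ?_⟩
    set s₁ := s₀ - (N : ℂ) with hs1
    have hs1re : s₁.re < -(N : ℝ) := by
      rw [hs1, Complex.sub_re, Complex.natCast_re]; linarith
    have hD1 : D s₁ ≠ 0 := by
      refine mul_ne_zero (T_big N hs1re N le_rfl) ?_
      have := T_big (p := p) N hs1re 1 hι
      rwa [pow_one] at this
    have hL1 : L s₁ ≠ 0 := by
      refine mul_ne_zero ?_ (mul_ne_zero (pow_ne_zero _ (inv_ne_zero hp0)) ?_)
      · intro h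
        have h1 : (p : ℂ)⁻¹ = 1 := (sub_eq_zero.1 h).symm
        have h2 : (p : ℂ) = 1 := by
          have := inv_mul_cancel₀ hp0
          rwa [h1, one_mul] at this
        exact hp.out.one_lt.ne' (by exact_mod_cast h2)
      · have := T_big (p := p) N hs1re 0 (Nat.zero_le _)
        rwa [pow_zero, one_mul] at this
    have hinv : AnalyticAt ℂ D⁻¹ s₁ := (hDa s₁).inv hD1
    have e1 : meromorphicOrderAt (D⁻¹ * (L * (F ∘ (· + (N : ℂ))) + K)) s₁ =
        meromorphicOrderAt (L * (F ∘ (· + (N : ℂ))) + K) s₁ :=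
      meromorphicOrderAt_mul_of_ne_zero hinv (by simpa using hD1)
    have e2 : meromorphicOrderAt (L * (F ∘ (· + (N : ℂ)))) s₁ = meromorphicOrderAt F s₀ := by
      rw [meromorphicOrderAt_mul_of_ne_zero (hLa s₁) hL1,
        meromorphicOrderAt_comp_add_const_eq_meromorphicOrderAt, hs1, sub_add_cancel]
    rw [e1, meromorphicOrderAt_add_eq_left_of_lt (hKa s₁).meromorphicAt, e2]
    rw [e2]
    exact lt_of_lt_of_le h0 (hKa s₁).meromorphicOrderAt_nonneg

/-! ### The two forms of the conjecture, for one polynomial and one prime -/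

/-- The strong monodromy conjecture for the Igusa zeta function of `f` at the prime `p`: the real
parts of the poles are roots of all `b` with `b(s) f ^ s = P(s) f ^ (s + 1)`. -/
def MC1 (p : ℕ) [Fact p.Prime] (f : MvPolynomial V ℤ) : Prop :=
  ∀ Z : ℂ → ℂ, MeromorphicOn Z Set.univ → (∀ s : ℂ, 0 < s.re → Z s = igusaZeta p f s) →
    ∀ s₀ : ℂ, meromorphicOrderAt Z s₀ < 0 → ∀ b : Polynomial ℂ,
      IsBFunction (map (Int.castRingHom ℂ) f) b → b.eval ((s₀.re : ℝ) : ℂ) = 0

/-- The same with orders and multiplicities. -/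
def MC2 (p : ℕ) [Fact p.Prime] (f : MvPolynomial V ℤ) : Prop :=
  ∀ Z : ℂ → ℂ, MeromorphicOn Z Set.univ → (∀ s : ℂ, 0 < s.re → Z s = igusaZeta p f s) →
    ∀ s₀ : ℂ, ∀ b : Polynomial ℂ, b ≠ 0 → IsBFunction (map (Int.castRingHom ℂ) f) b →
      ((-(b.rootMultiplicity ((s₀.re : ℝ) : ℂ) : ℤ) : ℤ) : WithTop ℤ) ≤ meromorphicOrderAt Z s₀

lemma map_stab (h : MvPolynomial W ℤ) : map (Int.castRingHom ℂ) (stab ι h) =
    stab ι (map (Int.castRingHom ℂ) h) := by
  unfold stab
  simp [map_rename]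

lemma map_yf (h : MvPolynomial W ℤ) : map (Int.castRingHom ℂ) (yf h) =
    yf (map (Int.castRingHom ℂ) h) := by
  unfold yf
  simp [map_rename]

theorem MC1_of_stab (hι : 1 ≤ Fintype.card ι) (f : MvPolynomial V ℤ)
    (h : MC1 p (stab ι (yf f))) : MC1 p f := by
  intro Z hZ hZ2 s₀ h0 b hb
  obtain ⟨G, hG, hG2, hG3⟩ := core (p := p) hι f Z hZ
    (fun s hs => by rw [hZ2 s hs, igusaZeta_eq_Zt])
  obtain ⟨hre, ho⟩ := hG3 s₀ h0
  have h1 := h G hG (fun s hs => by rw [hG2 s hs, igusaZeta_eq_Zt]) (s₀ - Fintype.card ι)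
    (by rw [ho]; exact h0) _ (by rw [map_stab, map_yf]; exact isB_stab _ b hb)
  rw [Polynomial.eval_mul, Polynomial.eval_comp] at h1
  simp only [Polynomial.eval_add, Polynomial.eval_X, Polynomial.eval_one, Polynomial.eval_C,
    Complex.sub_re, Complex.natCast_re, Complex.ofReal_sub, Complex.ofReal_natCast,
    sub_add_cancel] at h1
  rcases mul_eq_zero.1 h1 with h2 | h2
  · exfalso
    have h3 := congrArg Complex.re h2
    simp only [Complex.add_re, Complex.sub_re, Complex.ofReal_re, Complex.natCast_re,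
      Complex.one_re, Complex.zero_re] at h3
    have : (1 : ℝ) ≤ Fintype.card ι := by exact_mod_cast hι
    linarith
  · exact h2

theorem MC2_of_stab (hι : 1 ≤ Fintype.card ι) (f : MvPolynomial V ℤ)
    (h : MC2 p (stab ι (yf f))) : MC2 p f := by
  classical
  intro Z hZ hZ2 s₀ b hb0 hb
  by_cases h0 : meromorphicOrderAt Z s₀ < 0
  swap
  · refine le_trans ?_ (not_lt.1 h0)
    have : (-(b.rootMultiplicity ((s₀.re : ℝ) : ℂ) : ℤ) : ℤ) ≤ 0 := by omega
    exact_mod_cast this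
  obtain ⟨G, hG, hG2, hG3⟩ := core (p := p) hι f Z hZ
    (fun s hs => by rw [hZ2 s hs, igusaZeta_eq_Zt])
  obtain ⟨hre, ho⟩ := hG3 s₀ h0
  set N : ℂ := (Fintype.card ι : ℂ) with hN
  have hc0 : b.comp (Polynomial.X + Polynomial.C N) ≠ 0 := by
    intro h
    rw [Polynomial.comp_eq_zero_iff] at h
    rcases h with h | h
    · exact hb0 h
    · have := congrArg Polynomial.natDegree h.2
      rw [Polynomial.natDegree_X_add_C, Polynomial.natDegree_C] at this
      exact one_ne_zero this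
  have hx0 : (Polynomial.X + 1 : Polynomial ℂ) ≠ 0 := by
    have := Polynomial.X_add_C_ne_zero (1 : ℂ)
    rwa [Polynomial.C_1] at this
  have h1 := h G hG (fun s hs => by rw [hG2 s hs, igusaZeta_eq_Zt]) (s₀ - Fintype.card ι)
    ((Polynomial.X + 1) * b.comp (Polynomial.X + Polynomial.C (Fintype.card ι : ℂ)))
    (mul_ne_zero hx0 hc0) (by rw [map_stab, map_yf]; exact isB_stab _ b hb)
  rw [ho] at h1
  refine le_trans (le_of_eq ?_) h1
  congr 3
  rw [Polynomial.rootMultiplicity_mul (mul_ne_zero hx0 hc0)]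
  have h2 : Polynomial.rootMultiplicity (((s₀ - (Fintype.card ι : ℂ)).re : ℝ) : ℂ)
      (Polynomial.X + 1 : Polynomial ℂ) = 0 := by
    refine Polynomial.rootMultiplicity_eq_zero fun h => ?_
    rw [Polynomial.IsRoot, Polynomial.eval_add, Polynomial.eval_X, Polynomial.eval_one] at h
    have h3 := congrArg Complex.re h
    simp only [Complex.add_re, Complex.sub_re, Complex.ofReal_re, Complex.natCast_re,
      Complex.one_re, Complex.zero_re] at h3
    have : (1 : ℝ) ≤ Fintype.card ι := by exact_mod_cast hι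
    linarith
  rw [h2, zero_add]
  have h3 : (((s₀ - (Fintype.card ι : ℂ)).re : ℝ) : ℂ) = ((s₀.re : ℝ) : ℂ) - N := by
    simp [hN]
  rw [h3]
  rw [Polynomial.rootMultiplicity_eq_rootMultiplicity (p := b.comp _),
    Polynomial.rootMultiplicity_eq_rootMultiplicity (p := b), Polynomial.comp_assoc]
  congr 2
  rw [Polynomial.add_comp, Polynomial.X_comp, Polynomial.C_comp, add_assoc, ← Polynomial.C_add,
    sub_add_cancel]

end Pool.Agent.TH26.Cub
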