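import Pool.Agent.H628R4.TP.Defs

set_option autoImplicit false

/-! Functional equations `b(s) f ^ s = P(s) f ^ (s + 1)`: operators whose coefficients are
polynomials in `s`, and automorphisms of the polynomial ring. -/

namespace Pool.Agent.TH26.Cub

open MvPolynomial Pool.Agent.H628R4.TP

section
variable {σ : Type}

/-- The value at `s` of an operator whose coefficients are polynomials in `s`. -/
noncomputable def ev (σ : Type) (s : ℂ) :
    Polynomial (weylS σ) →+* Module.End ℂ (MvPolynomial σ ℂ) :=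
  Polynomial.eval₂RingHom' (weylS σ).val.toRingHom (algebraMap ℂ _ s)
    (fun _ => (Algebra.commutes s _).symm)

lemma ev_C (s : ℂ) (Q : weylS σ) : ev σ s (Polynomial.C Q) = (Q : Module.End ℂ _) := by
  unfold ev
  simp [Polynomial.eval₂RingHom']

lemma ev_X (s : ℂ) : ev σ s Polynomial.X = algebraMap ℂ _ s := by
  unfold ev
  simp [Polynomial.eval₂RingHom']

lemma ev_monomial_apply (s : ℂ) (m : ℕ) (Q : weylS σ) (g : MvPolynomial σ ℂ) :
    ev σ s (Polynomial.monomial m Q) g = (s ^ m) • (Q : Module.End ℂ (MvPolynomial σ ℂ)) g := by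
  rw [← Polynomial.C_mul_X_pow_eq_monomial, map_mul, map_pow, ev_C, ev_X, ← map_pow,
    Module.End.mul_apply, Module.algebraMap_end_apply, map_smul]

theorem isB_iff (f : MvPolynomial σ ℂ) (b : Polynomial ℂ) : IsBFunction f b ↔
    ∃ P : Polynomial (weylS σ), ∀ s : ℕ,
      C (b.eval (s : ℂ)) * f ^ s = ev σ (s : ℂ) P (f ^ (s + 1)) := by
  constructor
  · rintro ⟨P, hP⟩
    refine ⟨P.sum fun m Q => Polynomial.monomial m Q, fun s => ?_⟩
    rw [hP s, Finsupp.sum, Finsupp.sum, map_sum, LinearMap.sum_apply]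
    exact Finset.sum_congr rfl fun m _ => (ev_monomial_apply _ _ _ _).symm
  · rintro ⟨P, hP⟩
    refine ⟨Finsupp.onFinset P.support P.coeff (fun m hm => Polynomial.mem_support_iff.2 hm),
      fun s => ?_⟩
    rw [hP s, Finsupp.onFinset_sum _ (by intro m; simp)]
    conv_lhs => rw [Polynomial.as_sum_support P]
    rw [map_sum, LinearMap.sum_apply]
    exact Finset.sum_congr rfl fun m _ => ev_monomial_apply _ _ _ _

lemma mulLeft_mem_X (i : σ) :
    LinearMap.mulLeft ℂ (X i : MvPolynomial σ ℂ) ∈ weylS σ :=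
  Algebra.subset_adjoin (Or.inl ⟨i, rfl⟩)

lemma pderiv_mem (i : σ) :
    ((pderiv i : Derivation ℂ (MvPolynomial σ ℂ) (MvPolynomial σ ℂ)) :
      MvPolynomial σ ℂ →ₗ[ℂ] MvPolynomial σ ℂ) ∈ weylS σ :=
  Algebra.subset_adjoin (Or.inr ⟨i, rfl⟩)

lemma mulLeft_mem (g : MvPolynomial σ ℂ) : LinearMap.mulLeft ℂ g ∈ weylS σ := by
  induction g using MvPolynomial.induction_on with
  | C a =>
    have : LinearMap.mulLeft ℂ (C a : MvPolynomial σ ℂ) = algebraMap ℂ (Module.End ℂ _) a := by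
      refine LinearMap.ext fun x => ?_
      simp [Module.algebraMap_end_apply, MvPolynomial.smul_eq_C_mul]
    rw [this]
    exact Subalgebra.algebraMap_mem _ _
  | add p q hp hq =>
    have : LinearMap.mulLeft ℂ (p + q) = LinearMap.mulLeft ℂ p + LinearMap.mulLeft ℂ q := by
      refine LinearMap.ext fun x => ?_
      simp [add_mul]
    rw [this]
    exact Subalgebra.add_mem _ hp hq
  | mul_X p i hp =>
    have : LinearMap.mulLeft ℂ (p * X i) = LinearMap.mulLeft ℂ p * LinearMap.mulLeft ℂ (X i) := by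
      refine LinearMap.ext fun x => ?_
      simp [mul_assoc]
    rw [this]
    exact Subalgebra.mul_mem _ hp (mulLeft_mem_X i)

lemma deriv_mem [Finite σ] (D : Derivation ℂ (MvPolynomial σ ℂ) (MvPolynomial σ ℂ)) :
    (D : MvPolynomial σ ℂ →ₗ[ℂ] MvPolynomial σ ℂ) ∈ weylS σ := by
  classical
  cases nonempty_fintype σ
  have h : (D : MvPolynomial σ ℂ →ₗ[ℂ] MvPolynomial σ ℂ) = ∑ i, LinearMap.mulLeft ℂ (D (X i)) *
      ((pderiv i : Derivation ℂ (MvPolynomial σ ℂ) (MvPolynomial σ ℂ)) :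
      MvPolynomial σ ℂ →ₗ[ℂ] MvPolynomial σ ℂ) := by
    have h1 : ∀ (s : Finset σ) (x : MvPolynomial σ ℂ), (∑ i ∈ s, D (X i) •
        (pderiv i : Derivation ℂ (MvPolynomial σ ℂ) (MvPolynomial σ ℂ))) x =
        ∑ i ∈ s, D (X i) * pderiv i x := by
      intro s x
      induction s using Finset.induction_on with
      | empty => simp
      | insert a s ha ih => rw [Finset.sum_insert ha, Finset.sum_insert ha, Derivation.add_apply,
          ih, Derivation.smul_apply, smul_eq_mul]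
    have h2 : D = ∑ i, D (X i) • (pderiv i : Derivation ℂ (MvPolynomial σ ℂ) (MvPolynomial σ ℂ)) := by
      refine MvPolynomial.derivation_ext fun i => ?_
      rw [h1, Finset.sum_eq_single i]
      · simp
      · intro j _ hj
        simp [pderiv_X_of_ne (R := ℂ) hj.symm]
      · intro h; exact absurd (Finset.mem_univ i) h
    refine LinearMap.ext fun x => ?_
    show D x = _
    rw [LinearMap.sum_apply]
    conv_lhs => rw [h2, h1]
    rfl
  rw [h]
  exact Subalgebra.sum_mem _ fun i _ => Subalgebra.mul_mem _ (mulLeft_mem _) (pderiv_mem i)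

end

section
variable {σ τ : Type}

/-- transport of operators -/
noncomputable def tr (e : MvPolynomial σ ℂ ≃ₐ[ℂ] MvPolynomial τ ℂ) :
    Module.End ℂ (MvPolynomial σ ℂ) ≃ₐ[ℂ] Module.End ℂ (MvPolynomial τ ℂ) :=
  e.toLinearEquiv.conjAlgEquiv ℂ

lemma tr_apply (e : MvPolynomial σ ℂ ≃ₐ[ℂ] MvPolynomial τ ℂ) (A : Module.End ℂ (MvPolynomial σ ℂ))
    (x : MvPolynomial τ ℂ) : tr e A x = e (A (e.symm x)) := rfl

/-- the derivation `e ∘ D ∘ e⁻¹` -/
noncomputable def trD (e : MvPolynomial σ ℂ ≃ₐ[ℂ] MvPolynomial τ ℂ)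
    (D : Derivation ℂ (MvPolynomial σ ℂ) (MvPolynomial σ ℂ)) :
    Derivation ℂ (MvPolynomial τ ℂ) (MvPolynomial τ ℂ) :=
  Derivation.mk' (tr e (D : MvPolynomial σ ℂ →ₗ[ℂ] MvPolynomial σ ℂ)) (by
    intro a b
    rw [tr_apply, tr_apply, tr_apply]
    simp [smul_eq_mul])

lemma tr_mem [Finite τ] (e : MvPolynomial σ ℂ ≃ₐ[ℂ] MvPolynomial τ ℂ)
    (A : Module.End ℂ (MvPolynomial σ ℂ)) (hA : A ∈ weylS σ) : tr e A ∈ weylS τ := by
  have h : (weylS σ).map (tr e : Module.End ℂ (MvPolynomial σ ℂ) →ₐ[ℂ]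
      Module.End ℂ (MvPolynomial τ ℂ)) ≤ weylS τ := by
    unfold weylS
    rw [AlgHom.map_adjoin]
    refine Algebra.adjoin_le ?_
    rintro _ ⟨B, hB, rfl⟩
    rcases hB with ⟨i, rfl⟩ | ⟨i, rfl⟩
    · have : tr e (LinearMap.mulLeft ℂ (X i : MvPolynomial σ ℂ)) =
          LinearMap.mulLeft ℂ (e (X i)) := by
        refine LinearMap.ext fun x => ?_
        rw [tr_apply]; simp
      show tr e _ ∈ _
      rw [this]
      exact mulLeft_mem _
    · exact deriv_mem (trD e (pderiv i))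
  exact h ⟨A, hA, rfl⟩

/-- transport on the Weyl algebras -/
noncomputable def trW [Finite τ] (e : MvPolynomial σ ℂ ≃ₐ[ℂ] MvPolynomial τ ℂ) :
    weylS σ →ₐ[ℂ] weylS τ :=
  ((tr e : Module.End ℂ (MvPolynomial σ ℂ) →ₐ[ℂ] Module.End ℂ (MvPolynomial τ ℂ)).comp
    (weylS σ).val).codRestrict (weylS τ) (fun a => tr_mem e a a.2)

theorem isB_of_equiv [Finite τ] (e : MvPolynomial σ ℂ ≃ₐ[ℂ] MvPolynomial τ ℂ)
    (f : MvPolynomial σ ℂ) (b : Polynomial ℂ) (h : IsBFunction f b) : IsBFunction (e f) b := by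
  rw [isB_iff] at h ⊢
  obtain ⟨P, hP⟩ := h
  refine ⟨P.map (trW e).toRingHom, fun s => ?_⟩
  have h1 : ∀ (s : ℂ) (P : Polynomial (weylS σ)) (g : MvPolynomial σ ℂ),
      ev τ s (P.map (trW e).toRingHom) (e g) = e (ev σ s P g) := by
    intro s P g
    induction P using Polynomial.induction_on' with
    | add P Q hP hQ => simp only [Polynomial.map_add, map_add, LinearMap.add_apply, hP, hQ]
    | monomial m Q =>
      rw [Polynomial.map_monomial, ev_monomial_apply, ev_monomial_apply, map_smul]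
      congr 1
      show tr e (Q : Module.End ℂ _) (e g) = _
      rw [tr_apply, e.symm_apply_apply]
  rw [← map_pow e f (s + 1), h1, ← hP s, map_mul, map_pow]
  congr 1
  exact (e.commutes _).symm

theorem isB_equiv_iff [Finite σ] [Finite τ] (e : MvPolynomial σ ℂ ≃ₐ[ℂ] MvPolynomial τ ℂ)
    (f : MvPolynomial σ ℂ) (b : Polynomial ℂ) : IsBFunction (e f) b ↔ IsBFunction f b := by
  refine ⟨fun h => ?_, isB_of_equiv e f b⟩
  have := isB_of_equiv e.symm _ b h
  rwa [e.symm_apply_apply] at this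

end

end Pool.Agent.TH26.Cub
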